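import Mathlib

/-!
# MP_c729a8_an: zeros of `F(x,k) = ∫_0^{arccos(x-1)} sin (k arccos (x - cos l)) dl` on `(0,2)`

Exact statements of the pieces of the proof that `F(·,k)` has exactly `k-1` zeros in `(0,2)`, all
simple.  With `x = 2 - 2q`, `sin (l/2) = √q cos p`, `θ = 2 arcsin (√q sin p)` one has
`cos θ + cos l = x` and `F = G k q`, `G' = 2 k Φ_k`, `Φ_{k+2} = Φ_k - 2 G_{k+1}`.
-/

set_option autoImplicit false

namespace Pool.Agent.R259.CI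

open Real Set Filter Topology MeasureTheory

/-- The function of the problem. -/
noncomputable def F (x : ℝ) (k : ℕ) : ℝ :=
  ∫ l in (0:ℝ)..arccos (x - 1), sin (k * arccos (x - cos l))

/-- `F (2 - 2q) k` after the substitution `sin (l/2) = √q cos p`. -/
noncomputable def G (k : ℕ) (q : ℝ) : ℝ :=
  ∫ p in (0:ℝ)..(π / 2), sin (2 * k * arcsin (√q * sin p)) *
    (2 * √q * sin p / √(1 - q * cos p ^ 2))

/-- `Φ_k`, one has `G' = 2 k Φ_k`. -/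
noncomputable def Ph (k : ℕ) (q : ℝ) : ℝ :=
  ∫ p in (0:ℝ)..(π / 2), cos (2 * k * arcsin (√q * sin p)) /
    (√(1 - q * sin p ^ 2) * √(1 - q * cos p ^ 2))

/-- P1: substitution. -/
def P1 : Prop := ∀ (k : ℕ) (q : ℝ), 0 < q → q < 1 → F (2 - 2 * q) k = G k q

/-- P2: differentiation under the integral sign and one integration by parts. -/
def P2 : Prop := ∀ (k : ℕ) (q : ℝ), 0 < q → q < 1 → HasDerivAt (G k) (2 * k * Ph k q) q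

/-- P3: recursion. -/
def P3 : Prop := (∀ (k : ℕ) (q : ℝ), 0 < q → q < 1 → Ph (k + 2) q = Ph k q - 2 * G (k + 1) q) ∧
  ∀ q : ℝ, 0 < q → q < 1 → Ph 1 q = (1 - q) * Ph 0 q

/-- P4: power series of `Φ_0`, with positive decreasing coefficients. -/
def P4 : Prop := ∃ a : ℕ → ℝ, (∀ n, 0 < a n) ∧ (∀ n, a (n + 1) ≤ a n) ∧ a 1 < a 0 ∧
  ∀ q : ℝ, 0 < q → q < 1 → HasSum (fun n => a n * q ^ n) (Ph 0 q)

/-- P5: boundary behaviour and bounds. -/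
def P5 : Prop := (∀ k : ℕ, Tendsto (G k) (𝓝[>] 0) (𝓝 0)) ∧
  (∀ k : ℕ, 1 ≤ k → Tendsto (G k) (𝓝[<] 1) (𝓝 ((1 - cos (k * π)) / k))) ∧
  (∀ (k : ℕ) (q : ℝ), 0 < q → q < 1 → |G k q| ≤ π) ∧
  Tendsto (Ph 0) (𝓝[<] 1) atTop

/-- P6: signs at the points with `k L = N π`, and positivity before the first of them. -/
def P6 : Prop := (∀ k N : ℕ, 1 ≤ N → N < k → 0 < (-1) ^ (N - 1) * G k (sin (N * π / (2 * k)) ^ 2)) ∧
  (∀ (k : ℕ) (q : ℝ), 1 ≤ k → 0 < q → q < 1 → q ≤ sin (π / (2 * k)) ^ 2 → 0 < G k q)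

/-- P7: power series of `(-1)^k Φ_k`, coefficients nonnegative from the index `k` on. -/
def P7 : Prop := ∀ k : ℕ, ∃ b : ℕ → ℝ, (∀ n, k ≤ n → 0 ≤ b n) ∧ (∃ n, k ≤ n ∧ 0 < b n) ∧
  ∀ q : ℝ, 0 < q → q < 1 → HasSum (fun n => b n * q ^ n) ((-1) ^ k * Ph k q)

/-- P8: a power series with nonnegative coefficients from the index `m` on has at most `m` zeros in
`(0,1)`. -/
def P8 : Prop := ∀ (m : ℕ) (b : ℕ → ℝ) (h : ℝ → ℝ), (∀ n, m ≤ n → 0 ≤ b n) →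
  (∃ n, m ≤ n ∧ 0 < b n) → (∀ q : ℝ, 0 < q → q < 1 → HasSum (fun n => b n * q ^ n) (h q)) →
  ¬ ∃ x : Fin (m + 1) → ℝ, StrictMono x ∧ ∀ i, 0 < x i ∧ x i < 1 ∧ h (x i) = 0

/-- P9: zero bound for `G k` minus a quadratic polynomial vanishing at `0`. -/
def P9 : Prop := ∀ k : ℕ, 2 ≤ k → ∀ α β : ℝ,
  ¬ ∃ x : Fin (k + 1) → ℝ, StrictMono x ∧ ∀ i, 0 < x i ∧ x i < 1 ∧
    G k (x i) = α * x i + β * x i ^ 2

/-- P10: sign near `q = 1`. -/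
def P10 : Prop := ∀ k : ℕ, 1 ≤ k → ∀ᶠ q in 𝓝[<] (1:ℝ), 0 < (-1) ^ (k - 1) * G k q

/-- P11: abstract counting lemma. `g` alternates at `t 1 < ... < t k`, has no zeros outside
`(t 1, t k)`, and `g - αq - βq²` has at most `k` zeros in `(0,1)`. Then `g` has exactly `k-1` zeros
in `(0,1)`, all simple. -/
def P11 : Prop := ∀ (k : ℕ) (g g' : ℝ → ℝ) (t : ℕ → ℝ), 2 ≤ k →
  (∀ q : ℝ, 0 < q → q < 1 → HasDerivAt g (g' q) q) →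
  (∀ N : ℕ, 1 ≤ N → N ≤ k → 0 < t N ∧ t N < 1) →
  (∀ N : ℕ, 1 ≤ N → N < k → t N < t (N + 1)) →
  (∀ N : ℕ, 1 ≤ N → N ≤ k → 0 < (-1) ^ (N - 1) * g (t N)) →
  (∀ q : ℝ, 0 < q → q ≤ t 1 → 0 < g q) →
  (∀ q : ℝ, t k ≤ q → q < 1 → 0 < (-1) ^ (k - 1) * g q) →
  (∀ α β : ℝ, ¬ ∃ x : Fin (k + 1) → ℝ, StrictMono x ∧ ∀ i, 0 < x i ∧ x i < 1 ∧
    g (x i) = α * x i + β * x i ^ 2) →
  {q : ℝ | 0 < q ∧ q < 1 ∧ g q = 0}.encard = ((k - 1 : ℕ) : ℕ∞) ∧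
    ∀ q : ℝ, 0 < q → q < 1 → g q = 0 → g' q ≠ 0

end Pool.Agent.R259.CI
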