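import Mathlib
import Pool.Agent.R259.CI.Defs

set_option autoImplicit false

namespace Pool.Agent.R259.CI

open Real Set Filter Topology MeasureTheory

/-- The zero count and simplicity in the variable `q`. -/
lemma fin_q (h2 : P2) (h6 : P6) (h9 : P9) (h10 : P10) (h11 : P11) (k : ℕ) (hk : 1 ≤ k) :
    {q : ℝ | 0 < q ∧ q < 1 ∧ G k q = 0}.encard = ((k - 1 : ℕ) : ℕ∞) ∧
      ∀ q : ℝ, 0 < q → q < 1 → G k q = 0 → 2 * (k : ℝ) * Ph k q ≠ 0 := by
  rcases Nat.lt_or_ge k 2 with hk2 | hk2
  · have hk1 : k = 1 := by omega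
    subst hk1
    have hpos : ∀ q : ℝ, 0 < q → q < 1 → 0 < G 1 q := by
      intro q h0 h1
      refine h6.2 1 q le_rfl h0 h1 ?_
      have : sin (π / (2 * ((1 : ℕ) : ℝ))) = 1 := by
        rw [Nat.cast_one, mul_one, sin_pi_div_two]
      rw [this]
      linarith
    refine ⟨?_, fun q h0 h1 hq => absurd hq (hpos q h0 h1).ne'⟩
    have : {q : ℝ | 0 < q ∧ q < 1 ∧ G 1 q = 0} = ∅ := by
      ext q
      simp only [mem_ofPred_eq, mem_empty_iff_false, iff_false, not_and]
      exact fun h0 h1 hq => absurd hq (hpos q h0 h1).ne'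
    rw [this]
    simp
  · have hkR : (2 : ℝ) ≤ k := by exact_mod_cast hk2
    -- the test points
    set s : ℕ → ℝ := fun N => sin (N * π / (2 * k)) ^ 2 with hs
    have hang : ∀ N : ℕ, 1 ≤ N → N < k → 0 < (N : ℝ) * π / (2 * k) ∧ (N : ℝ) * π / (2 * k) < π / 2 := by
      intro N h1 h2
      have h1' : (1 : ℝ) ≤ N := by exact_mod_cast h1
      have h2' : (N : ℝ) < k := by exact_mod_cast h2
      have hpi := Real.pi_pos
      constructor
      · positivity
      · rw [div_lt_div_iff₀ (by linarith) two_pos]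
        nlinarith
    have hs01 : ∀ N : ℕ, 1 ≤ N → N < k → 0 < s N ∧ s N < 1 := by
      intro N h1 h2
      obtain ⟨ha, hb⟩ := hang N h1 h2
      have hpi := Real.pi_pos
      have hsin : 0 < sin (N * π / (2 * k)) := sin_pos_of_pos_of_lt_pi ha (by linarith)
      have hcos : 0 < cos (N * π / (2 * k)) := cos_pos_of_mem_Ioo ⟨by linarith, hb⟩
      refine ⟨by positivity, ?_⟩
      have := sin_sq_add_cos_sq (N * π / (2 * k))
      simp only [hs]
      nlinarith
    have hsmono : ∀ N : ℕ, 1 ≤ N → N + 1 < k → s N < s (N + 1) := by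
      intro N h1 h2
      obtain ⟨ha, hb⟩ := hang N h1 (by omega)
      obtain ⟨hc, hd⟩ := hang (N + 1) (by omega) h2
      have hpi := Real.pi_pos
      have hlt : (N : ℝ) * π / (2 * k) < ((N + 1 : ℕ) : ℝ) * π / (2 * k) := by
        apply div_lt_div_of_pos_right _ (by linarith)
        push_cast
        nlinarith
      have h3 : sin (N * π / (2 * k)) < sin (((N + 1 : ℕ) : ℝ) * π / (2 * k)) :=
        sin_lt_sin_of_lt_of_le_pi_div_two (by linarith) hd.le hlt
      have hsin : 0 < sin (N * π / (2 * k)) := sin_pos_of_pos_of_lt_pi ha (by linarith)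
      simp only [hs]
      nlinarith
    -- the last point
    obtain ⟨c, hc1, hc⟩ : ∃ c : ℝ, c < 1 ∧ ∀ q, c < q → q < 1 → 0 < (-1) ^ (k - 1) * G k q := by
      have := h10 k hk
      rw [eventually_nhdsWithin_iff, Metric.eventually_nhds_iff] at this
      obtain ⟨ε, hε, h⟩ := this
      refine ⟨1 - ε, by linarith, fun q hq1 hq2 => h ?_ hq2⟩
      rw [Real.dist_eq, abs_lt]
      constructor <;> linarith
    set m : ℝ := max (max c (s (k - 1))) 0 with hm
    have hm1 : m < 1 := by
      rw [hm]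
      exact max_lt (max_lt hc1 (hs01 (k - 1) (by omega) (by omega)).2) one_pos
    set tk : ℝ := (m + 1) / 2 with htk
    have htk1 : tk < 1 := by rw [htk]; linarith
    have htkm : m < tk := by rw [htk]; linarith
    have htk0 : 0 < tk := lt_of_le_of_lt (le_max_right _ _) htkm
    have htkc : c < tk := lt_of_le_of_lt ((le_max_left _ _).trans (le_max_left _ _)) htkm
    have htks : s (k - 1) < tk := lt_of_le_of_lt ((le_max_right _ _).trans (le_max_left _ _)) htkm
    set t : ℕ → ℝ := fun N => if N = k then tk else s N with ht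
    have htN : ∀ N, N ≠ k → t N = s N := fun N hN => by simp [ht, hN]
    have htkk : t k = tk := by simp [ht]
    have := h11 k (G k) (fun q => 2 * k * Ph k q) t hk2 (fun q h0 h1 => h2 k q h0 h1)
      (fun N h1 hN => by
        rcases eq_or_ne N k with h | h
        · rw [h, htkk]; exact ⟨htk0, htk1⟩
        · rw [htN N h]; exact hs01 N h1 (by omega))
      (fun N h1 hN => by
        rw [htN N (by omega)]
        rcases eq_or_ne (N + 1) k with h | h
        · rw [h, htkk]
          have : N = k - 1 := by omega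
          rw [this]; exact htks
        · rw [htN (N + 1) h]; exact hsmono N h1 (by omega))
      (fun N h1 hN => by
        rcases eq_or_ne N k with h | h
        · rw [h, htkk]; exact hc tk htkc htk1
        · rw [htN N h]; exact h6.1 k N h1 (by omega))
      (fun q h0 hq => by
        rw [htN 1 (by omega)] at hq
        have h1 := (hs01 1 le_rfl (by omega)).2
        refine h6.2 k q hk h0 (by linarith) (hq.trans_eq ?_)
        simp [hs])
      (fun q hq h1 => by
        rw [htkk] at hq
        exact hc q (by linarith) h1)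
      (h9 k hk2)
    exact this

/-- The main statement. -/
theorem fin (h1 : P1) (h2 : P2) (h6 : P6) (h9 : P9) (h10 : P10) (h11 : P11) :
    ∀ k : ℕ, 1 ≤ k → {x : ℝ | x ∈ Ioo (0:ℝ) 2 ∧ F x k = 0}.encard = ((k - 1 : ℕ) : ℕ∞) ∧
      ∀ x ∈ Ioo (0:ℝ) 2, F x k = 0 →
        DifferentiableAt ℝ (fun y => F y k) x ∧ deriv (fun y => F y k) x ≠ 0 := by
  intro k hk
  obtain ⟨hcard, hsimp⟩ := fin_q h2 h6 h9 h10 h11 k hk
  have hFG : ∀ x ∈ Ioo (0:ℝ) 2, F x k = G k (1 - x / 2) := by
    intro x hx
    have := h1 k (1 - x / 2) (by linarith [hx.2]) (by linarith [hx.1])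
    rw [← this]
    congr 1
    ring
  constructor
  · rw [← hcard]
    have himg : {x : ℝ | x ∈ Ioo (0:ℝ) 2 ∧ F x k = 0} =
        (fun q : ℝ => 2 - 2 * q) '' {q : ℝ | 0 < q ∧ q < 1 ∧ G k q = 0} := by
      ext x
      simp only [mem_ofPred_eq, mem_image]
      constructor
      · rintro ⟨hx, hF⟩
        refine ⟨1 - x / 2, ⟨by linarith [hx.2], by linarith [hx.1], ?_⟩, by ring⟩
        rw [← hFG x hx]; exact hF
      · rintro ⟨q, ⟨h0, h1', hq⟩, rfl⟩
        have hx : 2 - 2 * q ∈ Ioo (0:ℝ) 2 := ⟨by linarith, by linarith⟩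
        refine ⟨hx, ?_⟩
        rw [hFG _ hx]
        have : 1 - (2 - 2 * q) / 2 = q := by ring
        rw [this]; exact hq
    rw [himg]
    refine (Set.InjOn.encard_image ?_)
    intro a _ b _ hab
    simp only at hab
    linarith
  · intro x hx hF
    have h0 : 0 < 1 - x / 2 := by linarith [hx.2]
    have h1' : 1 - x / 2 < 1 := by linarith [hx.1]
    have hd := h2 k (1 - x / 2) h0 h1'
    have hin : HasDerivAt (fun y : ℝ => 1 - y / 2) (-(1 / 2)) x := by
      have := ((hasDerivAt_id x).div_const 2).const_sub 1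
      simpa using this
    have hcomp : HasDerivAt (fun y : ℝ => G k (1 - y / 2))
        (2 * k * Ph k (1 - x / 2) * (-(1 / 2))) x :=
      HasDerivAt.comp (h₂ := G k) (h := fun y : ℝ => 1 - y / 2) x hd hin
    have hev : (fun y => F y k) =ᶠ[𝓝 x] fun y => G k (1 - y / 2) := by
      filter_upwards [Ioo_mem_nhds hx.1 hx.2] with y hy
      exact hFG y hy
    have hD := hcomp.congr_of_eventuallyEq hev
    refine ⟨hD.differentiableAt, ?_⟩
    rw [hD.deriv]
    have hne := hsimp (1 - x / 2) h0 h1' (by rw [← hFG x hx]; exact hF)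
    intro h
    apply hne
    linarith

end Pool.Agent.R259.CI
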