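import Mathlib
import Pool.Agent.R259.CI.Defs

set_option autoImplicit false

namespace Pool.Agent.R259.CI

open Real Set Filter Topology MeasureTheory

/-- `cos (2 arcsin y) = 1 - 2 y²` -/
lemma p1_cos {y : ℝ} (h1 : -1 ≤ y) (h2 : y ≤ 1) : cos (2 * arcsin y) = 1 - 2 * y ^ 2 := by
  rw [Real.cos_two_mul, Real.cos_sq', Real.sin_arcsin h1 h2]; ring

lemma p1_arccos {y : ℝ} (h1 : 0 ≤ y) (h2 : y ≤ 1) : arccos (1 - 2 * y ^ 2) = 2 * arcsin y := by
  rw [← p1_cos (by linarith) h2]
  refine Real.arccos_cos ?_ ?_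
  · have := Real.arcsin_nonneg.2 h1; linarith
  · have := Real.arcsin_le_pi_div_two y; linarith

theorem p1 : P1 := by
  intro k q hq0 hq1
  have hs0 : 0 < √q := Real.sqrt_pos.2 hq0
  have hs1 : √q < 1 := by rw [Real.sqrt_lt' one_pos]; simpa using hq1
  have hss : √q ^ 2 = q := Real.sq_sqrt hq0.le
  have habs : ∀ p : ℝ, |√q * cos p| < 1 := by
    intro p
    rw [abs_mul, abs_of_pos hs0]
    calc √q * |cos p| ≤ √q * 1 := by gcongr; exact Real.abs_cos_le_one p
      _ < 1 := by linarith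
  have hpos : ∀ p : ℝ, 0 < 1 - (√q * cos p) ^ 2 := by
    intro p
    have h := (sq_lt_one_iff_abs_lt_one _).2 (habs p)
    linarith
  have hl0 : (2 : ℝ) * arcsin (√q * cos 0) = arccos (1 - 2 * q) := by
    rw [Real.cos_zero, mul_one, ← p1_arccos hs0.le hs1.le, hss]
  have hl1 : (2 : ℝ) * arcsin (√q * cos (π / 2)) = 0 := by
    rw [Real.cos_pi_div_two, mul_zero, Real.arcsin_zero, mul_zero]
  have hder : ∀ p ∈ uIcc (0:ℝ) (π / 2), HasDerivAt (fun p => 2 * arcsin (√q * cos p))
      (2 * (1 / √(1 - (√q * cos p) ^ 2) * (√q * (-sin p)))) p := by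
    intro p _
    have h1 := (abs_lt.1 (habs p))
    have h2 : HasDerivAt (fun p => √q * cos p) (√q * (-sin p)) p :=
      (Real.hasDerivAt_cos p).const_mul _
    exact ((Real.hasDerivAt_arcsin h1.1.ne' h1.2.ne).comp p h2).const_mul 2
  have hcont : ContinuousOn (fun p => 2 * (1 / √(1 - (√q * cos p) ^ 2) * (√q * (-sin p))))
      (uIcc (0:ℝ) (π / 2)) := by
    refine Continuous.continuousOn ?_
    refine continuous_const.mul (Continuous.mul ?_ (by fun_prop))
    refine continuous_const.div (by fun_prop) fun p => ?_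
    exact (Real.sqrt_pos.2 (hpos p)).ne'
  have hg : Continuous fun l : ℝ => sin (k * arccos (2 - 2 * q - cos l)) := by
    have := Real.continuous_arccos
    fun_prop
  have key := intervalIntegral.integral_comp_mul_deriv hder hcont hg
  rw [hl0, hl1] at key
  unfold F G
  rw [show (2 - 2 * q - 1 : ℝ) = 1 - 2 * q by ring, intervalIntegral.integral_symm, ← key,
    ← intervalIntegral.integral_neg]
  refine intervalIntegral.integral_congr fun p hp => ?_
  rw [uIcc_of_le (by positivity)] at hp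
  have hsin0 : 0 ≤ sin p := Real.sin_nonneg_of_nonneg_of_le_pi hp.1 (by linarith [hp.2, Real.pi_pos])
  have h1 : 2 - 2 * q - cos (2 * arcsin (√q * cos p)) = 1 - 2 * (√q * sin p) ^ 2 := by
    rw [p1_cos (abs_lt.1 (habs p)).1.le (abs_lt.1 (habs p)).2.le, mul_pow, mul_pow, hss,
      Real.cos_sq']
    ring
  have h2 : √q * sin p ≤ 1 := by
    calc √q * sin p ≤ 1 * 1 := by
          gcongr
          exact Real.sin_le_one p
      _ = 1 := one_mul 1
  show -((fun l : ℝ => sin (k * arccos (2 - 2 * q - cos l))) (2 * arcsin (√q * cos p)) *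
    (2 * (1 / √(1 - (√q * cos p) ^ 2) * (√q * (-sin p))))) = _
  simp only
  rw [h1, p1_arccos (by positivity) h2, mul_pow, hss,
    show (k : ℝ) * (2 * arcsin (√q * sin p)) = 2 * k * arcsin (√q * sin p) by ring]
  ring

end Pool.Agent.R259.CI
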