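import Mathlib
import Pool.Agent.R259.CI.Defs

set_option autoImplicit false

namespace Pool.Agent.R259.CI

open Real Set Filter Topology MeasureTheory

theorem p10_even (h3 : P3) (h5 : P5) (j : ℕ) (q : ℝ) (h0 : 0 < q) (h1 : q < 1) :
    Ph 0 q - 2 * π * j ≤ Ph (2 * j) q := by
  induction j with
  | zero => simp
  | succ j ih =>
    have e1 := h3.1 (2 * j) q h0 h1
    have e2 := h5.2.2.1 (2 * j + 1) q h0 h1
    rw [show 2 * (j + 1) = 2 * j + 2 by ring, e1]
    push_cast
    have := (abs_le.1 e2).2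
    linarith

theorem p10 (h2 : P2) (h3 : P3) (h5 : P5) : P10 := by
  intro k hk
  rcases Nat.even_or_odd' k with ⟨j, hj | hj⟩
  · -- even
    have hj1 : 1 ≤ j := by omega
    have hpos : ∀ᶠ q in 𝓝[<] (1 : ℝ), 0 < Ph k q := by
      have e1 := h5.2.2.2.eventually (eventually_gt_atTop (2 * π * j))
      have e2 : ∀ᶠ q in 𝓝[<] (1 : ℝ), q ∈ Ioo (0 : ℝ) 1 :=
        Ioo_mem_nhdsLT (by norm_num)
      filter_upwards [e1, e2] with q hq hq2
      have := p10_even h3 h5 j q hq2.1 hq2.2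
      rw [← hj] at this
      linarith
    obtain ⟨δ, hδ1, hδ⟩ : ∃ δ : ℝ, δ < 1 ∧ ∀ q, δ < q → q < 1 → 0 < q ∧ 0 < Ph k q := by
      have e2 : ∀ᶠ q in 𝓝[<] (1 : ℝ), q ∈ Ioo (0 : ℝ) 1 := Ioo_mem_nhdsLT (by norm_num)
      have e3 := e2.and hpos
      rw [Filter.eventually_iff, mem_nhdsLT_iff_exists_Ioo_subset] at e3
      obtain ⟨δ, hδ1, hδ⟩ := e3
      exact ⟨δ, hδ1, fun q h1 h2 => ⟨(hδ ⟨h1, h2⟩).1.1, (hδ ⟨h1, h2⟩).2⟩⟩
    have hmono : StrictMonoOn (G k) (Ioo δ 1) := by
      refine strictMonoOn_of_deriv_pos (convex_Ioo _ _) ?_ ?_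
      · intro q hq
        exact (h2 k q (hδ q hq.1 hq.2).1 hq.2).continuousAt.continuousWithinAt
      · intro q hq
        rw [interior_Ioo] at hq
        rw [(h2 k q (hδ q hq.1 hq.2).1 hq.2).deriv]
        have := (hδ q hq.1 hq.2).2
        have : (0 : ℝ) < k := by exact_mod_cast hk
        positivity
    have hlim : Tendsto (G k) (𝓝[<] 1) (𝓝 0) := by
      have := h5.2.1 k hk
      have e1 : cos (k * π) = 1 := by
        rw [hj]
        push_cast
        rw [show (2 * (j : ℝ)) * π = j * (2 * π) by ring]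
        exact cos_nat_mul_two_pi j
      rw [e1, sub_self, zero_div] at this
      exact this
    have hIoo : ∀ᶠ q in 𝓝[<] (1 : ℝ), q ∈ Ioo δ 1 := Ioo_mem_nhdsLT hδ1
    filter_upwards [hIoo] with q hq
    have hneg : G k q < 0 := by
      obtain ⟨q', hq'1, hq'2⟩ := exists_between hq.2
      have e1 : G k q < G k q' := hmono hq ⟨hq.1.trans hq'1, hq'2⟩ hq'1
      have e2 : G k q' ≤ 0 := by
        refine ge_of_tendsto hlim ?_
        filter_upwards [Ioo_mem_nhdsLT hq'2] with r hr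
        exact (hmono ⟨hq.1.trans hq'1, hq'2⟩ ⟨(hq.1.trans hq'1).trans hr.1, hr.2⟩ hr.1).le
      linarith
    have hsgn : (-1 : ℝ) ^ (k - 1) = -1 := by
      have : Odd (k - 1) := ⟨j - 1, by omega⟩
      exact this.neg_one_pow
    rw [hsgn]
    linarith
  · have hlim : Tendsto (G k) (𝓝[<] 1) (𝓝 (2 / k)) := by
      have := h5.2.1 k hk
      have e1 : cos (k * π) = -1 := by
        rw [hj]
        push_cast
        rw [show (2 * (j : ℝ) + 1) * π = j * (2 * π) + π by ring]
        exact cos_nat_mul_two_pi_add_pi j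
      rw [e1] at this
      norm_num at this
      exact this
    have hkpos : (0 : ℝ) < 2 / k := by
      have : (0 : ℝ) < k := by exact_mod_cast hk
      positivity
    filter_upwards [hlim.eventually (lt_mem_nhds hkpos)] with q hq
    have hsgn : (-1 : ℝ) ^ (k - 1) = 1 := by
      have : Even (k - 1) := ⟨j, by omega⟩
      exact this.neg_one_pow
    rw [hsgn, one_mul]
    exact hq

end Pool.Agent.R259.CI
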