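import Mathlib
import Pool.Agent.R259.CI.Defs

set_option autoImplicit false

namespace Pool.Agent.R259.CI

open Real Set Filter Topology MeasureTheory

theorem p11_ivt (H : ℝ → ℝ) (a b : ℝ) (hab : a < b) (hc : ContinuousOn H (Icc a b))
    (h : H a * H b < 0) : ∃ z, a < z ∧ z < b ∧ H z = 0 := by
  rcases mul_neg_iff.1 h with ⟨h1, h2⟩ | ⟨h1, h2⟩
  · obtain ⟨z, hz, hz2⟩ := intermediate_value_Ioo' hab.le hc ⟨h2, h1⟩
    exact ⟨z, hz.1, hz.2, hz2⟩
  · obtain ⟨z, hz, hz2⟩ := intermediate_value_Ioo hab.le hc ⟨h1, h2⟩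
    exact ⟨z, hz.1, hz.2, hz2⟩

theorem p11_loc (H : ℝ → ℝ) (q d : ℝ) (hd : 0 < d) (hH : HasDerivAt H d q) (h0 : H q = 0) :
    (∀ c, c < q → ∃ z, c < z ∧ z < q ∧ H z < 0) ∧ ∀ c, q < c → ∃ z, q < z ∧ z < c ∧ 0 < H z := by
  have h1 : ∀ᶠ z in 𝓝[≠] q, 0 < slope H q z :=
    (hasDerivAt_iff_tendsto_slope.1 hH).eventually (lt_mem_nhds hd)
  have h2 : ∀ z, slope H q z = (z - q)⁻¹ * H z := fun z => by
    rw [slope_def_field, h0, sub_zero, div_eq_inv_mul]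
  constructor
  · intro c hc
    have h3 : ∀ᶠ z in 𝓝[<] q, 0 < slope H q z ∧ c < z ∧ z < q :=
      (h1.filter_mono (nhdsWithin_mono q fun z hz => ne_of_lt hz)).and
        ((eventually_nhdsWithin_of_eventually_nhds (lt_mem_nhds hc)).and
          eventually_mem_nhdsWithin)
    obtain ⟨z, hz1, hz2, hz3⟩ := h3.exists
    refine ⟨z, hz2, hz3, ?_⟩
    rw [h2] at hz1
    by_contra hcon
    push Not at hcon
    have : (z - q)⁻¹ * H z ≤ 0 := mul_nonpos_of_nonpos_of_nonneg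
      (inv_nonpos.2 (by linarith)) hcon
    linarith
  · intro c hc
    have h3 : ∀ᶠ z in 𝓝[>] q, 0 < slope H q z ∧ z < c ∧ q < z :=
      (h1.filter_mono (nhdsWithin_mono q fun z hz => (ne_of_lt hz).symm)).and
        ((eventually_nhdsWithin_of_eventually_nhds (gt_mem_nhds hc)).and
          eventually_mem_nhdsWithin)
    obtain ⟨z, hz1, hz2, hz3⟩ := h3.exists
    refine ⟨z, hz3, hz2, ?_⟩
    rw [h2] at hz1
    by_contra hcon
    push Not at hcon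
    have : (z - q)⁻¹ * H z ≤ 0 := mul_nonpos_of_nonneg_of_nonpos
      (inv_nonneg.2 (by linarith)) hcon
    linarith

/-- Three zeros in `(a, b)`. -/
def P11Three (H : ℝ → ℝ) (a b : ℝ) : Prop :=
  ∃ y1 y2 y3, a < y1 ∧ y1 < y2 ∧ y2 < y3 ∧ y3 < b ∧ H y1 = 0 ∧ H y2 = 0 ∧ H y3 = 0

theorem p11_three1 (H : ℝ → ℝ) (a b q d : ℝ) (haq : a < q) (hqb : q < b)
    (hc : ContinuousOn H (Icc a b)) (ha : 0 < H a) (hb : H b < 0) (hd : 0 < d)
    (hH : HasDerivAt H d q) (h0 : H q = 0) : P11Three H a b := by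
  obtain ⟨h1, h2⟩ := p11_loc H q d hd hH h0
  obtain ⟨u, hu1, hu2, hu3⟩ := h1 a haq
  obtain ⟨v, hv1, hv2, hv3⟩ := h2 b hqb
  obtain ⟨y, hy1, hy2, hy3⟩ := p11_ivt H a u hu1
    (hc.mono (Icc_subset_Icc le_rfl (hu2.trans hqb).le)) (mul_neg_of_pos_of_neg ha hu3)
  obtain ⟨w, hw1, hw2, hw3⟩ := p11_ivt H v b hv2
    (hc.mono (Icc_subset_Icc (haq.trans hv1).le le_rfl)) (mul_neg_of_pos_of_neg hv3 hb)
  exact ⟨y, q, w, hy1, hy2.trans hu2, hv1.trans hw1, hw2, hy3, h0, hw3⟩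

theorem p11_three2 (H : ℝ → ℝ) (a b q r d e : ℝ) (haq : a < q) (hqr : q < r) (hrb : r < b)
    (hc : ContinuousOn H (Icc a b)) (ha : 0 < H a) (hb : H b < 0) (hd : d ≠ 0) (he : e ≠ 0)
    (hH : HasDerivAt H d q) (h0 : H q = 0) (hH2 : HasDerivAt H e r) (h02 : H r = 0) :
    P11Three H a b := by
  rcases lt_or_gt_of_ne hd with hd | hd
  · rcases lt_or_gt_of_ne he with he | he
    · -- a zero between
      obtain ⟨_, h2⟩ := p11_loc (fun x => -H x) q (-d) (by linarith) hH.neg (by simp [h0])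
      obtain ⟨h1, _⟩ := p11_loc (fun x => -H x) r (-e) (by linarith) hH2.neg (by simp [h02])
      obtain ⟨u, hu1, hu2, hu3⟩ := h2 ((q + r) / 2) (by linarith)
      obtain ⟨v, hv1, hv2, hv3⟩ := h1 ((q + r) / 2) (by linarith)
      obtain ⟨y, hy1, hy2, hy3⟩ := p11_ivt H u v (by linarith)
        (hc.mono (Icc_subset_Icc (by linarith) (by linarith)))
        (mul_neg_of_neg_of_pos (by linarith) (by linarith))
      exact ⟨q, y, r, haq, by linarith, by linarith, hrb, h0, hy3, h02⟩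
    · obtain ⟨_, h2⟩ := p11_loc H r e he hH2 h02
      obtain ⟨v, hv1, hv2, hv3⟩ := h2 b hrb
      obtain ⟨w, hw1, hw2, hw3⟩ := p11_ivt H v b hv2
        (hc.mono (Icc_subset_Icc (by linarith) le_rfl)) (mul_neg_of_pos_of_neg hv3 hb)
      exact ⟨q, r, w, haq, hqr, by linarith, hw2, h0, h02, hw3⟩
  · obtain ⟨h1, _⟩ := p11_loc H q d hd hH h0
    obtain ⟨u, hu1, hu2, hu3⟩ := h1 a haq
    obtain ⟨y, hy1, hy2, hy3⟩ := p11_ivt H a u hu1
      (hc.mono (Icc_subset_Icc le_rfl (by linarith))) (mul_neg_of_pos_of_neg ha hu3)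
    exact ⟨y, q, r, hy1, hy2.trans hu2, hqr, hrb, hy3, h0, h02⟩

theorem p11_mono (k : ℕ) (t : ℕ → ℝ) (hmono : ∀ N : ℕ, 1 ≤ N → N < k → t N < t (N + 1)) :
    ∀ N M : ℕ, 1 ≤ N → N ≤ M → M ≤ k → t N ≤ t M := by
  intro N M hN hNM
  induction M, hNM using Nat.le_induction with
  | base => exact fun _ => le_rfl
  | succ M hM ih => exact fun h => (ih (by omega)).trans (hmono M (by omega) (by omega)).le

theorem p11_disj (k : ℕ) (t : ℕ → ℝ) (hmono : ∀ N : ℕ, 1 ≤ N → N < k → t N < t (N + 1))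
    (N M : ℕ) (hN : 1 ≤ N) (hNk : N < k) (hM : 1 ≤ M) (hMk : M < k) (q : ℝ) (h1 : t N < q)
    (h2 : q < t (N + 1)) (h3 : t M < q) (h4 : q < t (M + 1)) : N = M := by
  rcases lt_trichotomy N M with h | h | h
  · have := p11_mono k t hmono (N + 1) M (by omega) (by omega) (by omega)
    linarith
  · exact h
  · have := p11_mono k t hmono (M + 1) N (by omega) (by omega) (by omega)
    linarith

theorem p11_zeros (k : ℕ) (t : ℕ → ℝ) (H : ℝ → ℝ) (hk : 2 ≤ k)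
    (hc : ContinuousOn H (Ioo 0 1))
    (ht : ∀ N : ℕ, 1 ≤ N → N ≤ k → 0 < t N ∧ t N < 1)
    (hmono : ∀ N : ℕ, 1 ≤ N → N < k → t N < t (N + 1))
    (hs : ∀ N : ℕ, 1 ≤ N → N ≤ k → 0 < (-1) ^ (N - 1) * H (t N)) (N : ℕ) (hN : 1 ≤ N)
    (hNk : N < k) : ∃ z, t N < z ∧ z < t (N + 1) ∧ H z = 0 := by
  refine p11_ivt H (t N) (t (N + 1)) (hmono N hN hNk) (hc.mono fun z hz => ⟨?_, ?_⟩) ?_
  · exact (ht N hN hNk.le).1.trans_le hz.1
  · exact hz.2.trans_lt (ht (N + 1) (by omega) (by omega)).2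
  · have h1 := mul_pos (hs N hN hNk.le) (hs (N + 1) (by omega) (by omega))
    have h2 : (-1 : ℝ) ^ (N - 1) * H (t N) * ((-1) ^ (N + 1 - 1) * H (t (N + 1))) =
        -(H (t N) * H (t (N + 1))) := by
      obtain ⟨n, rfl⟩ : ∃ n, N = n + 1 := ⟨N - 1, by omega⟩
      simp only [Nat.add_sub_cancel]
      have h3 : ((-1 : ℝ) ^ n) * (-1) ^ n = 1 := by
        rw [← mul_pow]; norm_num
      calc (-1 : ℝ) ^ n * H (t (n + 1)) * ((-1) ^ (n + 1) * H (t (n + 1 + 1)))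
          = ((-1 : ℝ) ^ n * (-1) ^ n) * -(H (t (n + 1)) * H (t (n + 1 + 1))) := by ring
        _ = _ := by rw [h3, one_mul]
    rw [h2] at h1
    linarith

theorem p11_many (k : ℕ) (t : ℕ → ℝ) (H : ℝ → ℝ) (hk : 2 ≤ k)
    (hc : ContinuousOn H (Ioo 0 1))
    (ht : ∀ N : ℕ, 1 ≤ N → N ≤ k → 0 < t N ∧ t N < 1)
    (hmono : ∀ N : ℕ, 1 ≤ N → N < k → t N < t (N + 1))
    (hs : ∀ N : ℕ, 1 ≤ N → N ≤ k → 0 < (-1) ^ (N - 1) * H (t N)) (M : ℕ) (hM : 1 ≤ M)
    (hMk : M < k) (h3 : P11Three H (t M) (t (M + 1))) :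
    ∃ x : Fin (k + 1) → ℝ, StrictMono x ∧ ∀ i, 0 < x i ∧ x i < 1 ∧ H (x i) = 0 := by
  have hz := p11_zeros k t H hk hc ht hmono hs
  choose! z hz1 hz2 hz3 using hz
  obtain ⟨y1, y2, y3, hy1, hy2, hy3, hy4, e1, e2, e3⟩ := h3
  classical
  let S : Finset ℝ := ((Finset.Ico 1 k).erase M).image z ∪ {y1, y2, y3}
  have hinj : Set.InjOn z ((Finset.Ico 1 k).erase M : Finset ℕ) := by
    intro a ha b hb hab
    have ha' := Finset.mem_Ico.1 (Finset.mem_of_mem_erase ha)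
    have hb' := Finset.mem_Ico.1 (Finset.mem_of_mem_erase hb)
    exact p11_disj k t hmono a b ha'.1 ha'.2 hb'.1 hb'.2 (z a) (hz1 a ha'.1 ha'.2)
      (hz2 a ha'.1 ha'.2) (by rw [hab]; exact hz1 b hb'.1 hb'.2)
      (by rw [hab]; exact hz2 b hb'.1 hb'.2)
  have hdis : Disjoint (((Finset.Ico 1 k).erase M).image z) ({y1, y2, y3} : Finset ℝ) := by
    rw [Finset.disjoint_left]
    intro q hq hq2
    obtain ⟨a, ha, rfl⟩ := Finset.mem_image.1 hq
    have ha' := Finset.mem_Ico.1 (Finset.mem_of_mem_erase ha)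
    have hne := Finset.ne_of_mem_erase ha
    have h5 : t M < z a ∧ z a < t (M + 1) := by
      simp only [Finset.mem_insert, Finset.mem_singleton] at hq2
      rcases hq2 with h | h | h <;> rw [h] <;> constructor <;> linarith
    exact hne (p11_disj k t hmono a M ha'.1 ha'.2 hM hMk (z a) (hz1 a ha'.1 ha'.2)
      (hz2 a ha'.1 ha'.2) h5.1 h5.2)
  have hcard : S.card = k + 1 := by
    rw [Finset.card_union_of_disjoint hdis, Finset.card_image_of_injOn hinj,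
      Finset.card_erase_of_mem (Finset.mem_Ico.2 ⟨hM, hMk⟩), Nat.card_Ico,
      Finset.card_eq_three.2 ⟨y1, y2, y3, hy2.ne, (hy2.trans hy3).ne, hy3.ne, rfl⟩]
    omega
  have hM0 := (ht M hM hMk.le).1
  have hM1 := (ht (M + 1) (by omega) (by omega)).2
  have hS : ∀ q ∈ S, 0 < q ∧ q < 1 ∧ H q = 0 := by
    intro q hq
    rcases Finset.mem_union.1 hq with hq | hq
    · obtain ⟨a, ha, rfl⟩ := Finset.mem_image.1 hq
      have ha' := Finset.mem_Ico.1 (Finset.mem_of_mem_erase ha)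
      exact ⟨(ht a ha'.1 ha'.2.le).1.trans (hz1 a ha'.1 ha'.2),
        (hz2 a ha'.1 ha'.2).trans (ht (a + 1) (by omega) (by omega)).2, hz3 a ha'.1 ha'.2⟩
    · simp only [Finset.mem_insert, Finset.mem_singleton] at hq
      rcases hq with rfl | rfl | rfl
      · exact ⟨by linarith, by linarith, e1⟩
      · exact ⟨by linarith, by linarith, e2⟩
      · exact ⟨by linarith, by linarith, e3⟩
  exact ⟨S.orderEmbOfFin hcard, (S.orderEmbOfFin hcard).strictMono,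
    fun i => hS _ (S.orderEmbOfFin_mem hcard i)⟩

theorem p11_sq (n : ℕ) : ((-1 : ℝ) ^ n) * (-1) ^ n = 1 := by
  rw [← mul_pow]; norm_num

theorem p11_sgn (n : ℕ) : (-1 : ℝ) ^ n = 1 ∨ (-1 : ℝ) ^ n = -1 := neg_one_pow_eq_or ℝ n

theorem p11_loc_idx (k : ℕ) (t : ℕ → ℝ) (g : ℝ → ℝ) 
    (hs : ∀ N : ℕ, 1 ≤ N → N ≤ k → 0 < (-1) ^ (N - 1) * g (t N))
    (hleft : ∀ q : ℝ, 0 < q → q ≤ t 1 → 0 < g q) (q : ℝ) (hq0 : 0 < q) (hgq : g q = 0) :
    ∀ n : ℕ, 1 ≤ n → n ≤ k → q < t n → ∃ M, 1 ≤ M ∧ M < n ∧ t M < q ∧ q < t (M + 1) := by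
  intro n hn
  induction n, hn using Nat.le_induction with
  | base =>
    intro _ h
    have := hleft q hq0 h.le
    linarith
  | succ n hn ih =>
    intro hnk hq
    rcases lt_trichotomy q (t n) with h | h | h
    · obtain ⟨M, h1, h2, h3⟩ := ih (by omega) h
      exact ⟨M, h1, by omega, h3⟩
    · exfalso
      have h2 := hs n hn (by omega)
      rw [← h, hgq, mul_zero] at h2
      exact lt_irrefl _ h2
    · exact ⟨n, hn, by omega, h, hq⟩

theorem p11_eta (k : ℕ) (c : ℕ → ℝ) (hc : ∀ N, 1 ≤ N → N ≤ k → 0 < c N) :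
    ∃ η : ℝ, 0 < η ∧ ∀ N, 1 ≤ N → N ≤ k → η < c N := by
  have h : ∀ᶠ η in 𝓝[>] (0 : ℝ), 0 < η ∧ ∀ N ∈ Finset.Icc 1 k, η < c N := by
    refine eventually_mem_nhdsWithin.and ?_
    rw [Filter.eventually_all_finset]
    intro N hN
    have hN' := Finset.mem_Icc.1 hN
    exact eventually_nhdsWithin_of_eventually_nhds (gt_mem_nhds (hc N hN'.1 hN'.2))
  obtain ⟨η, h1, h2⟩ := h.exists
  exact ⟨η, h1, fun N h3 h4 => h2 N (Finset.mem_Icc.2 ⟨h3, h4⟩)⟩

theorem p11_three_smul (s : ℝ) (hs : s ≠ 0) (H : ℝ → ℝ) (a b : ℝ)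
    (h : P11Three (fun x => s * H x) a b) : P11Three H a b := by
  obtain ⟨y1, y2, y3, hy1, hy2, hy3, hy4, e1, e2, e3⟩ := h
  exact ⟨y1, y2, y3, hy1, hy2, hy3, hy4, (mul_eq_zero.1 e1).resolve_left hs,
    (mul_eq_zero.1 e2).resolve_left hs, (mul_eq_zero.1 e3).resolve_left hs⟩

theorem p11 : P11 := by
  intro k g g' t hk hg ht hmono hs hleft hright hno
  have hgc : ContinuousOn g (Ioo 0 1) := fun q hq =>
    (hg q hq.1 hq.2).continuousAt.continuousWithinAt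
  have hidx : ∀ q, 0 < q → q < 1 → g q = 0 → ∃ M, 1 ≤ M ∧ M < k ∧ t M < q ∧ q < t (M + 1) := by
    intro q hq0 hq1 hgq
    refine p11_loc_idx k t g hs hleft q hq0 hgq k (by omega) le_rfl ?_
    by_contra h
    push Not at h
    have := hright q h hq1
    rw [hgq, mul_zero] at this
    exact lt_irrefl _ this
  -- signs at the two end points
  have hsg : ∀ (H : ℝ → ℝ), (∀ N : ℕ, 1 ≤ N → N ≤ k → 0 < (-1) ^ (N - 1) * H (t N)) →
      ∀ M, 1 ≤ M → M < k → 0 < (-1) ^ (M - 1) * H (t M) ∧ (-1) ^ (M - 1) * H (t (M + 1)) < 0 := by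
    intro H hH M hM hMk
    refine ⟨hH M hM hMk.le, ?_⟩
    have h1 := hH (M + 1) (by omega) (by omega)
    obtain ⟨n, rfl⟩ : ∃ n, M = n + 1 := ⟨M - 1, by omega⟩
    simp only [Nat.add_sub_cancel] at h1 ⊢
    rw [pow_succ] at h1
    linarith
  have hsub : ∀ M, 1 ≤ M → M < k → Icc (t M) (t (M + 1)) ⊆ Ioo (0 : ℝ) 1 := by
    intro M hM hMk z hz
    exact ⟨(ht M hM hMk.le).1.trans_le hz.1,
      hz.2.trans_lt (ht (M + 1) (by omega) (by omega)).2⟩
  have hsimple : ∀ q : ℝ, 0 < q → q < 1 → g q = 0 → g' q ≠ 0 := by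
    intro q0 h0 h1 hz hd
    obtain ⟨M, hM, hMk, hM1, hM2⟩ := hidx q0 h0 h1 hz
    obtain ⟨η, hη, hη2⟩ := p11_eta k (fun N => (-1) ^ (N - 1) * g (t N)) hs
    obtain ⟨σ, hσ⟩ : ∃ σ : ℝ, σ = (-1) ^ (M - 1) := ⟨_, rfl⟩
    have hσ2 : σ * σ = 1 := by rw [hσ]; exact p11_sq _
    have hσ0 : σ ≠ 0 := by
      intro h; rw [h] at hσ2; norm_num at hσ2
    let H : ℝ → ℝ := fun q => g q + η * σ * (q * (q - q0))
    have hH : ∀ q, 0 < q → q < 1 → HasDerivAt H (g' q + η * σ * (1 * (q - q0) + q * 1)) q := by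
      intro q h0 h1
      exact (hg q h0 h1).add
        (((hasDerivAt_id q).mul ((hasDerivAt_id q).sub_const q0)).const_mul (η * σ))
    have hHs : ∀ N : ℕ, 1 ≤ N → N ≤ k → 0 < (-1) ^ (N - 1) * H (t N) := by
      intro N hN hNk
      have h2 := hη2 N hN hNk
      obtain ⟨h3, h4⟩ := ht N hN hNk
      have h5 : |η * (((-1) ^ (N - 1) * σ) * (t N * (t N - q0)))| ≤ η := by
        rw [abs_mul, abs_mul, abs_mul, abs_mul, abs_of_pos hη, abs_of_pos h3, hσ, abs_pow,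
          abs_pow, abs_neg, abs_one, one_pow, one_pow, one_mul, one_mul]
        have h6 : |t N - q0| ≤ 1 := abs_le.2 ⟨by linarith, by linarith⟩
        have h7 : t N * |t N - q0| ≤ 1 := mul_le_one₀ h4.le (abs_nonneg _) h6
        calc η * (t N * |t N - q0|) ≤ η * 1 := mul_le_mul_of_nonneg_left h7 hη.le
          _ = η := mul_one _
      have h8 := (abs_le.1 h5).1
      have h9 : (-1) ^ (N - 1) * H (t N) = (-1) ^ (N - 1) * g (t N) +
          η * (((-1) ^ (N - 1) * σ) * (t N * (t N - q0))) := by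
        simp only [H]; ring
      rw [h9]
      linarith
    obtain ⟨hsM, hsM2⟩ := hsg H hHs M hM hMk
    have hHc : ContinuousOn H (Ioo 0 1) := fun q hq =>
      (hH q hq.1 hq.2).continuousAt.continuousWithinAt
    have h3z : P11Three H (t M) (t (M + 1)) := by
      refine p11_three_smul σ hσ0 H _ _ ?_
      refine p11_three1 (fun x => σ * H x) (t M) (t (M + 1)) q0
        (σ * (g' q0 + η * σ * (1 * (q0 - q0) + q0 * 1))) hM1 hM2
        ((hHc.mono (hsub M hM hMk)).const_smul σ) (by rw [hσ]; exact hsM)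
        (by rw [hσ]; exact hsM2) ?_ ((hH q0 h0 h1).const_mul σ) ?_
      · rw [hd]
        have : σ * (0 + η * σ * (1 * (q0 - q0) + q0 * 1)) = (σ * σ) * (η * q0) := by ring
        rw [this, hσ2, one_mul]
        positivity
      · simp only [H]
        rw [hz]; ring
    obtain ⟨x, hx1, hx2⟩ := p11_many k t H hk hHc ht hmono hHs M hM hMk h3z
    refine hno (η * σ * q0) (-(η * σ)) ⟨x, hx1, fun i => ⟨(hx2 i).1, (hx2 i).2.1, ?_⟩⟩
    have := (hx2 i).2.2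
    simp only [H] at this
    linarith
  have huniq : ∀ q r : ℝ, ∀ M, 1 ≤ M → M < k → t M < q → q < r → r < t (M + 1) → g q = 0 →
      g r = 0 → False := by
    intro q r M hM hMk h1 h2 h3 h4 h5
    obtain ⟨hsM, hsM2⟩ := hsg g hs M hM hMk
    obtain ⟨σ, hσ⟩ : ∃ σ : ℝ, σ = (-1) ^ (M - 1) := ⟨_, rfl⟩
    have hσ2 : σ * σ = 1 := by rw [hσ]; exact p11_sq _
    have hσ0 : σ ≠ 0 := by
      intro h; rw [h] at hσ2; norm_num at hσ2
    have hq := hsub M hM hMk (show q ∈ Icc (t M) (t (M + 1)) from ⟨h1.le, (h2.trans h3).le⟩)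
    have hr := hsub M hM hMk (show r ∈ Icc (t M) (t (M + 1)) from ⟨(h1.trans h2).le, h3.le⟩)
    have h3z : P11Three g (t M) (t (M + 1)) := by
      refine p11_three_smul σ hσ0 g _ _ ?_
      exact p11_three2 (fun x => σ * g x) (t M) (t (M + 1)) q r (σ * g' q) (σ * g' r) h1 h2 h3
        ((hgc.mono (hsub M hM hMk)).const_smul σ) (by rw [hσ]; exact hsM)
        (by rw [hσ]; exact hsM2) (mul_ne_zero hσ0 (hsimple q hq.1 hq.2 h4))
        (mul_ne_zero hσ0 (hsimple r hr.1 hr.2 h5)) ((hg q hq.1 hq.2).const_mul σ)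
        (by simp only [h4, mul_zero]) ((hg r hr.1 hr.2).const_mul σ)
        (by simp only [h5, mul_zero])
    obtain ⟨x, hx1, hx2⟩ := p11_many k t g hk hgc ht hmono hs M hM hMk h3z
    refine hno 0 0 ⟨x, hx1, fun i => ⟨(hx2 i).1, (hx2 i).2.1, ?_⟩⟩
    rw [(hx2 i).2.2]; ring
  refine ⟨?_, hsimple⟩
  have hz := p11_zeros k t g hk hgc ht hmono hs
  choose! z hz1 hz2 hz3 using hz
  have himg : {q : ℝ | 0 < q ∧ q < 1 ∧ g q = 0} = z '' ((Finset.Ico 1 k : Finset ℕ) : Set ℕ) := by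
    ext q
    constructor
    · rintro ⟨h0, h1, h2⟩
      obtain ⟨M, hM, hMk, hM1, hM2⟩ := hidx q h0 h1 h2
      refine ⟨M, by simp [hM, hMk], ?_⟩
      rcases lt_trichotomy (z M) q with h | h | h
      · exact (huniq (z M) q M hM hMk (hz1 M hM hMk) h hM2 (hz3 M hM hMk) h2).elim
      · exact h
      · exact (huniq q (z M) M hM hMk hM1 h (hz2 M hM hMk) h2 (hz3 M hM hMk)).elim
    · rintro ⟨M, hM, rfl⟩
      rw [Finset.mem_coe, Finset.mem_Ico] at hM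
      have := hsub M hM.1 hM.2 (show z M ∈ Icc (t M) (t (M + 1)) from
        ⟨(hz1 M hM.1 hM.2).le, (hz2 M hM.1 hM.2).le⟩)
      exact ⟨this.1, this.2, hz3 M hM.1 hM.2⟩
  have hinj : Set.InjOn z ((Finset.Ico 1 k : Finset ℕ) : Set ℕ) := by
    intro a ha b hb hab
    rw [Finset.mem_coe, Finset.mem_Ico] at ha hb
    exact p11_disj k t hmono a b ha.1 ha.2 hb.1 hb.2 (z a) (hz1 a ha.1 ha.2)
      (hz2 a ha.1 ha.2) (by rw [hab]; exact hz1 b hb.1 hb.2)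
      (by rw [hab]; exact hz2 b hb.1 hb.2)
  rw [himg, hinj.encard_image, Set.encard_coe_eq_coe_finsetCard, Nat.card_Ico]

end Pool.Agent.R259.CI
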