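import Mathlib
import Pool.Agent.R259.CI.Defs

/-!
# MP_c729a8_an, piece P2: differentiation under the integral sign and integration by parts
-/

set_option autoImplicit false

namespace Pool.Agent.R259.CI

open Real Set Filter Topology MeasureTheory

lemma p2_c_pos {q : ℝ} (h0 : 0 < q) (h1 : q < 1) (p : ℝ) : 0 < 1 - q * cos p ^ 2 := by
  nlinarith [cos_sq_le_one p, sq_nonneg (cos p)]

lemma p2_s_pos {q : ℝ} (h0 : 0 < q) (h1 : q < 1) (p : ℝ) : 0 < 1 - q * sin p ^ 2 := by
  nlinarith [sin_sq_le_one p, sq_nonneg (sin p)]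

lemma p2_arg {q : ℝ} (h0 : 0 < q) (h1 : q < 1) (p : ℝ) : |√q * sin p| < 1 := by
  have hsq : √q < 1 := by
    rw [Real.sqrt_lt' one_pos]
    simpa using h1
  have hsq0 : 0 < √q := Real.sqrt_pos.2 h0
  rw [abs_mul, abs_of_pos hsq0]
  nlinarith [abs_sin_le_one p, abs_nonneg (sin p)]

/-- the integrand -/
noncomputable def p2_g (k : ℕ) (q p : ℝ) : ℝ :=
  sin (2 * k * arcsin (√q * sin p)) * (2 * √q * sin p / √(1 - q * cos p ^ 2))

/-- the `q`-derivative of the integrand -/
noncomputable def p2_g' (k : ℕ) (q p : ℝ) : ℝ :=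
  2 * k * cos (2 * k * arcsin (√q * sin p)) * sin p ^ 2 /
    (√(1 - q * sin p ^ 2) * √(1 - q * cos p ^ 2)) +
  sin (2 * k * arcsin (√q * sin p)) * sin p / (√q * √(1 - q * cos p ^ 2) ^ 3)

/-- the boundary term -/
noncomputable def p2_B (k : ℕ) (q p : ℝ) : ℝ :=
  sin (2 * k * arcsin (√q * sin p)) * cos p / (√q * √(1 - q * cos p ^ 2))

lemma p2_dq (k : ℕ) {q : ℝ} (h0 : 0 < q) (h1 : q < 1) (p : ℝ) :
    HasDerivAt (fun q => p2_g k q p) (p2_g' k q p) q := by
  have hs := Real.sqrt_pos.2 (p2_s_pos h0 h1 p)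
  have hc := Real.sqrt_pos.2 (p2_c_pos h0 h1 p)
  have hq := Real.sqrt_pos.2 h0
  have harg := p2_arg h0 h1 p
  rw [abs_lt] at harg
  have dsq : HasDerivAt (fun q : ℝ => √q) (1 / (2 * √q)) q := Real.hasDerivAt_sqrt h0.ne'
  have dA : HasDerivAt (fun q : ℝ => arcsin (√q * sin p)) (sin p / (2 * √q * √(1 - q * sin p ^ 2))) q := by
    have h2 := (hasDerivAt_arcsin harg.1.ne' harg.2.ne).comp q (dsq.mul_const (sin p))
    refine HasDerivAt.congr_deriv h2 ?_
    rw [mul_pow, Real.sq_sqrt h0.le]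
    field_simp
  have dc : HasDerivAt (fun q : ℝ => √(1 - q * cos p ^ 2))
      (-cos p ^ 2 / (2 * √(1 - q * cos p ^ 2))) q := by
    have h : HasDerivAt (fun q : ℝ => 1 - q * cos p ^ 2) (-cos p ^ 2) q := by
      have := ((hasDerivAt_id q).mul_const (cos p ^ 2)).const_sub 1
      refine HasDerivAt.congr_deriv this ?_
      ring
    exact HasDerivAt.sqrt h (p2_c_pos h0 h1 p).ne'
  have d1 := (dA.const_mul (2 * (k : ℝ))).sin
  have d2 := ((dsq.const_mul 2).mul_const (sin p)).div dc hc.ne'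
  have d3 := d1.mul d2
  refine HasDerivAt.congr_deriv d3 ?_
  unfold p2_g'
  have hcc : √(1 - q * cos p ^ 2) ^ 2 = 1 - q * cos p ^ 2 := Real.sq_sqrt (p2_c_pos h0 h1 p).le
  have hqq : √q ^ 2 = q := Real.sq_sqrt h0.le
  simp only [Pi.div_apply]
  have hs' := hs.ne'
  have hc' := hc.ne'
  have hq' := hq.ne'
  clear d1 d2 d3 dA dc dsq harg hs hc hq
  generalize √(1 - q * sin p ^ 2) = s at *
  generalize √(1 - q * cos p ^ 2) = c at *
  generalize √q = r at *
  field_simp
  rw [hqq]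
  have h1' : c ^ 2 - -(q * cos p ^ 2) = 1 := by rw [hcc]; ring
  rw [h1', mul_one]

/-- the integrand of `Ph` -/
noncomputable def p2_h (k : ℕ) (q p : ℝ) : ℝ :=
  cos (2 * k * arcsin (√q * sin p)) / (√(1 - q * sin p ^ 2) * √(1 - q * cos p ^ 2))

lemma p2_dp (k : ℕ) {q : ℝ} (h0 : 0 < q) (h1 : q < 1) (p : ℝ) :
    HasDerivAt (p2_B k q) (2 * k * p2_h k q p - p2_g' k q p) p := by
  have hs := Real.sqrt_pos.2 (p2_s_pos h0 h1 p)
  have hc := Real.sqrt_pos.2 (p2_c_pos h0 h1 p)
  have hq := Real.sqrt_pos.2 h0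
  have harg := p2_arg h0 h1 p
  rw [abs_lt] at harg
  have dA : HasDerivAt (fun p : ℝ => arcsin (√q * sin p)) (√q * cos p / √(1 - q * sin p ^ 2)) p := by
    have h2 := (hasDerivAt_arcsin harg.1.ne' harg.2.ne).comp p ((hasDerivAt_sin p).const_mul (√q))
    refine HasDerivAt.congr_deriv h2 ?_
    rw [mul_pow, Real.sq_sqrt h0.le]
    ring
  have dc : HasDerivAt (fun p : ℝ => √(1 - q * cos p ^ 2))
      ((q * (2 * cos p * sin p)) / (2 * √(1 - q * cos p ^ 2))) p := by
    have h : HasDerivAt (fun p => 1 - q * cos p ^ 2) (q * (2 * cos p * sin p)) p := by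
      have := (((hasDerivAt_cos p).pow 2).const_mul q).const_sub 1
      refine HasDerivAt.congr_deriv this ?_
      push_cast
      ring
    exact HasDerivAt.sqrt h (p2_c_pos h0 h1 p).ne'
  have d1 := (dA.const_mul (2 * (k : ℝ))).sin.mul (hasDerivAt_cos p)
  have d3 := d1.div (dc.const_mul (√q)) (mul_pos hq hc).ne'
  refine HasDerivAt.congr_deriv d3 ?_
  unfold p2_g' p2_h
  have hcc : √(1 - q * cos p ^ 2) ^ 2 = 1 - q * cos p ^ 2 := Real.sq_sqrt (p2_c_pos h0 h1 p).le
  have hqq : √q ^ 2 = q := Real.sq_sqrt h0.le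
  have hsc : sin p ^ 2 = 1 - cos p ^ 2 := by linarith [sin_sq_add_cos_sq p]
  simp only [Pi.mul_apply]
  have hs' := hs.ne'
  have hc' := hc.ne'
  have hq' := hq.ne'
  clear d1 d3 dA dc harg hs hc hq
  generalize √(1 - q * sin p ^ 2) = s at *
  generalize √(1 - q * cos p ^ 2) = c at *
  generalize √q = r at *
  field_simp
  linear_combination (2 * k * r * cos (2 * k * arcsin (r * sin p)) * c ^ 2) * hsc -
    (sin p * s * sin (2 * k * arcsin (r * sin p))) * hcc

lemma p2_cont_g (k : ℕ) {q : ℝ} (h0 : 0 < q) (h1 : q < 1) : Continuous (p2_g k q) := by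
  unfold p2_g
  apply Continuous.mul
  · fun_prop
  · apply Continuous.div
    · fun_prop
    · fun_prop
    · intro p
      exact (Real.sqrt_pos.2 (p2_c_pos h0 h1 p)).ne'

lemma p2_cont_h (k : ℕ) {q : ℝ} (h0 : 0 < q) (h1 : q < 1) : Continuous (p2_h k q) := by
  unfold p2_h
  apply Continuous.div
  · fun_prop
  · fun_prop
  · intro p
    exact (mul_pos (Real.sqrt_pos.2 (p2_s_pos h0 h1 p)) (Real.sqrt_pos.2 (p2_c_pos h0 h1 p))).ne'

lemma p2_cont_g' (k : ℕ) {q : ℝ} (h0 : 0 < q) (h1 : q < 1) : Continuous (p2_g' k q) := by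
  unfold p2_g'
  apply Continuous.add
  · apply Continuous.div
    · fun_prop
    · fun_prop
    · intro p
      exact (mul_pos (Real.sqrt_pos.2 (p2_s_pos h0 h1 p)) (Real.sqrt_pos.2 (p2_c_pos h0 h1 p))).ne'
  · apply Continuous.div
    · fun_prop
    · fun_prop
    · intro p
      have := Real.sqrt_pos.2 (p2_c_pos h0 h1 p)
      have := Real.sqrt_pos.2 h0
      positivity

lemma p2_int (k : ℕ) {q : ℝ} (h0 : 0 < q) (h1 : q < 1) :
    ∫ p in (0:ℝ)..(π / 2), p2_g' k q p = 2 * k * Ph k q := by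
  have hB : ∫ p in (0:ℝ)..(π / 2), (2 * k * p2_h k q p - p2_g' k q p)
      = p2_B k q (π / 2) - p2_B k q 0 := by
    apply intervalIntegral.integral_eq_sub_of_hasDerivAt
    · intro p _
      exact p2_dp k h0 h1 p
    · apply Continuous.intervalIntegrable
      exact (continuous_const.mul (p2_cont_h k h0 h1)).sub (p2_cont_g' k h0 h1)
  have hB0 : p2_B k q (π / 2) - p2_B k q 0 = 0 := by
    unfold p2_B
    simp
  rw [hB0, intervalIntegral.integral_sub, intervalIntegral.integral_const_mul] at hB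
  · unfold Ph
    unfold p2_h at hB
    linarith
  · exact (continuous_const.mul (p2_cont_h k h0 h1)).intervalIntegrable _ _
  · exact (p2_cont_g' k h0 h1).intervalIntegrable _ _

lemma p2_bound (k : ℕ) {q1 q2 q : ℝ} (hq1 : 0 < q1) (hq2 : q2 < 1) (h1 : q1 < q) (h2 : q < q2)
    (p : ℝ) : ‖p2_g' k q p‖ ≤ 2 * k / (√(1 - q2) * √(1 - q2)) + 1 / (√q1 * √(1 - q2) ^ 3) := by
  have h0 : 0 < q := by linarith
  have h1' : q < 1 := by linarith
  have hs : √(1 - q2) ≤ √(1 - q * sin p ^ 2) := by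
    apply Real.sqrt_le_sqrt
    nlinarith [sin_sq_le_one p, sq_nonneg (sin p)]
  have hc : √(1 - q2) ≤ √(1 - q * cos p ^ 2) := by
    apply Real.sqrt_le_sqrt
    nlinarith [cos_sq_le_one p, sq_nonneg (cos p)]
  have hr : √q1 ≤ √q := Real.sqrt_le_sqrt h1.le
  have hd : 0 < √(1 - q2) := Real.sqrt_pos.2 (by linarith)
  have he : 0 < √q1 := Real.sqrt_pos.2 hq1
  unfold p2_g'
  refine (norm_add_le _ _).trans (add_le_add ?_ ?_)
  · rw [norm_div, Real.norm_eq_abs, Real.norm_eq_abs, abs_of_pos (a := _ * _)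
      (mul_pos (hd.trans_le hs) (hd.trans_le hc))]
    apply div_le_div₀ (by positivity) _ (by positivity) (by gcongr)
    rw [abs_mul, abs_mul, abs_of_nonneg (a := 2 * (k : ℝ)) (by positivity)]
    have h3 : |sin p ^ 2| ≤ 1 := by
      rw [abs_of_nonneg (sq_nonneg _)]
      exact sin_sq_le_one p
    have h4 := abs_cos_le_one (2 * k * arcsin (√q * sin p))
    calc 2 * (k : ℝ) * |cos (2 * k * arcsin (√q * sin p))| * |sin p ^ 2|
        ≤ 2 * k * 1 * 1 := by gcongr
      _ = 2 * k := by ring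
  · rw [norm_div, Real.norm_eq_abs, Real.norm_eq_abs, abs_of_pos (a := √q * _)
      (mul_pos (he.trans_le hr) (pow_pos (hd.trans_le hc) 3))]
    apply div_le_div₀ (by positivity) _ (by positivity) (by gcongr)
    rw [abs_mul]
    have h3 := abs_sin_le_one p
    have h4 := abs_sin_le_one (2 * k * arcsin (√q * sin p))
    calc |sin (2 * k * arcsin (√q * sin p))| * |sin p| ≤ 1 * 1 := by gcongr
      _ = 1 := by ring

theorem p2 : P2 := by
  intro k q h0 h1
  set q1 := q / 2 with hq1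
  set q2 := (1 + q) / 2 with hq2
  have hs : Ioo q1 q2 ∈ 𝓝 q := Ioo_mem_nhds (by linarith) (by linarith)
  have h := intervalIntegral.hasDerivAt_integral_of_dominated_loc_of_deriv_le
    (μ := volume) (a := 0) (b := π / 2) (F := p2_g k) (F' := p2_g' k) (x₀ := q) (s := Ioo q1 q2)
    (bound := fun _ => 2 * k / (√(1 - q2) * √(1 - q2)) + 1 / (√q1 * √(1 - q2) ^ 3))
    hs
    (by
      filter_upwards [hs] with x hx
      exact (p2_cont_g k (by linarith [hx.1]) (by linarith [hx.2])).aestronglyMeasurable)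
    ((p2_cont_g k h0 h1).intervalIntegrable _ _)
    (p2_cont_g' k h0 h1).aestronglyMeasurable
    (by
      refine Eventually.of_forall fun p _ x hx => ?_
      exact p2_bound k (by linarith) (by linarith) hx.1 hx.2 p)
    (by simp)
    (by
      refine Eventually.of_forall fun p _ x hx => ?_
      exact p2_dq k (by linarith [hx.1]) (by linarith [hx.2]) p)
  rw [← p2_int k h0 h1]
  exact h.2

end Pool.Agent.R259.CI
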