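import Mathlib
import Pool.Agent.R259.CI.Defs

set_option autoImplicit false

namespace Pool.Agent.R259.CI

open Real Set Filter Topology MeasureTheory

lemma P3_lt {q : ℝ} (h1 : q < 1) (h0 : 0 < q) (s : ℝ) (hs : s ^ 2 ≤ 1) : 0 < 1 - q * s ^ 2 := by
  nlinarith [mul_le_mul_of_nonneg_left hs h0.le]

lemma P3_W_cont (q : ℝ) :
    Continuous fun p : ℝ => √(1 - q * sin p ^ 2) * √(1 - q * cos p ^ 2) := by fun_prop

lemma P3_W_pos {q : ℝ} (h0 : 0 < q) (h1 : q < 1) (p : ℝ) :
    0 < √(1 - q * sin p ^ 2) * √(1 - q * cos p ^ 2) := by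
  have h2 := P3_lt h1 h0 (sin p) (by nlinarith [sin_sq_add_cos_sq p, sq_nonneg (cos p)])
  have h3 := P3_lt h1 h0 (cos p) (by nlinarith [sin_sq_add_cos_sq p, sq_nonneg (sin p)])
  positivity

lemma P3_int {q : ℝ} (h0 : 0 < q) (h1 : q < 1) (f : ℝ → ℝ) (hf : Continuous f) (a b : ℝ) :
    IntervalIntegrable (fun p => f p / (√(1 - q * sin p ^ 2) * √(1 - q * cos p ^ 2))) volume a b :=
  (hf.div (P3_W_cont q) fun p => (P3_W_pos h0 h1 p).ne').intervalIntegrable _ _

theorem p3 : P3 := by
  refine ⟨fun k q h0 h1 => ?_, fun q h0 h1 => ?_⟩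
  · have hs1 : √q < 1 := by
      rw [Real.sqrt_lt' one_pos]; simpa using h1
    have hs0 : 0 < √q := Real.sqrt_pos.2 h0
    have hsq : √q ^ 2 = q := Real.sq_sqrt h0.le
    unfold Ph G
    rw [← intervalIntegral.integral_const_mul, ← intervalIntegral.integral_sub]
    · refine intervalIntegral.integral_congr fun p _ => ?_
      set A := arcsin (√q * sin p) with hA
      have hle : |√q * sin p| ≤ 1 := by
        rw [abs_mul, abs_of_pos hs0]
        have := abs_sin_le_one p
        nlinarith [abs_nonneg (sin p)]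
      have hsinA : sin A = √q * sin p :=
        Real.sin_arcsin (abs_le.1 hle).1 (abs_le.1 hle).2
      have hcosA : cos A = √(1 - q * sin p ^ 2) := by
        rw [hA, Real.cos_arcsin, mul_pow, hsq]
      have h2 := P3_lt h1 h0 (sin p) (by nlinarith [sin_sq_add_cos_sq p, sq_nonneg (cos p)])
      have h3 := P3_lt h1 h0 (cos p) (by nlinarith [sin_sq_add_cos_sq p, sq_nonneg (sin p)])
      have hS : 0 < √(1 - q * sin p ^ 2) := Real.sqrt_pos.2 h2
      have hC : 0 < √(1 - q * cos p ^ 2) := Real.sqrt_pos.2 h3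
      have hk : cos (2 * ((k + 2 : ℕ) : ℝ) * A) - cos (2 * (k : ℝ) * A)
          = -2 * sin (2 * ((k + 1 : ℕ) : ℝ) * A) * (2 * sin A * cos A) := by
        rw [← Real.sin_two_mul]
        have e1 : 2 * ((k + 2 : ℕ) : ℝ) * A = 2 * ((k + 1 : ℕ) : ℝ) * A + 2 * A := by
          push_cast; ring
        have e2 : 2 * (k : ℝ) * A = 2 * ((k + 1 : ℕ) : ℝ) * A - 2 * A := by
          push_cast; ring
        rw [e1, e2, Real.cos_add, Real.cos_sub]
        ring
      have hk' : cos (2 * ((k + 2 : ℕ) : ℝ) * A) = cos (2 * (k : ℝ) * A)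
          - 2 * sin (2 * ((k + 1 : ℕ) : ℝ) * A) * (2 * (√q * sin p) * √(1 - q * sin p ^ 2)) := by
        rw [← hsinA, ← hcosA]; linarith
      rw [hk']
      clear hk' hk hcosA hsinA
      generalize √(1 - q * sin p ^ 2) = S at hS ⊢
      generalize √(1 - q * cos p ^ 2) = C at hC ⊢
      have hS' := hS.ne'
      have hC' := hC.ne'
      field_simp
    · exact P3_int h0 h1 _ (by fun_prop) _ _
    · have : Continuous fun p : ℝ => 2 * (sin (2 * ((k + 1 : ℕ) : ℝ) * arcsin (√q * sin p)) *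
          (2 * √q * sin p / √(1 - q * cos p ^ 2))) := by
        have h : Continuous fun p : ℝ => 2 * √q * sin p / √(1 - q * cos p ^ 2) :=
          Continuous.div (by fun_prop) (by fun_prop) fun p => (Real.sqrt_pos.2
            (P3_lt h1 h0 (cos p) (by nlinarith [sin_sq_add_cos_sq p, sq_nonneg (sin p)]))).ne'
        fun_prop
      exact this.intervalIntegrable _ _
  · have hs1 : √q < 1 := by
      rw [Real.sqrt_lt' one_pos]; simpa using h1
    have hs0 : 0 < √q := Real.sqrt_pos.2 h0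
    have hsq : √q ^ 2 = q := Real.sq_sqrt h0.le
    -- symmetric integrals
    have hsym : (∫ p in (0:ℝ)..(π / 2), sin p ^ 2 / (√(1 - q * sin p ^ 2) * √(1 - q * cos p ^ 2)))
        = ∫ p in (0:ℝ)..(π / 2), cos p ^ 2 / (√(1 - q * sin p ^ 2) * √(1 - q * cos p ^ 2)) := by
      have := intervalIntegral.integral_comp_sub_left
        (fun p => sin p ^ 2 / (√(1 - q * sin p ^ 2) * √(1 - q * cos p ^ 2))) (π / 2)
        (a := 0) (b := π / 2)
      simp only [sub_self, sub_zero, Real.sin_pi_div_two_sub, Real.cos_pi_div_two_sub] at this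
      rw [← this]
      refine intervalIntegral.integral_congr fun p _ => ?_
      rw [mul_comm (√(1 - q * cos p ^ 2))]
    have hadd : (∫ p in (0:ℝ)..(π / 2), sin p ^ 2 / (√(1 - q * sin p ^ 2) * √(1 - q * cos p ^ 2)))
        + (∫ p in (0:ℝ)..(π / 2), cos p ^ 2 / (√(1 - q * sin p ^ 2) * √(1 - q * cos p ^ 2)))
        = ∫ p in (0:ℝ)..(π / 2), 1 / (√(1 - q * sin p ^ 2) * √(1 - q * cos p ^ 2)) := by
      rw [← intervalIntegral.integral_add]
      · refine intervalIntegral.integral_congr fun p _ => ?_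
        rw [← add_div, sin_sq_add_cos_sq]
      · exact P3_int h0 h1 _ (by fun_prop) _ _
      · exact P3_int h0 h1 _ (by fun_prop) _ _
    have hPh0 : Ph 0 q = ∫ p in (0:ℝ)..(π / 2), 1 / (√(1 - q * sin p ^ 2) * √(1 - q * cos p ^ 2)) := by
      unfold Ph
      refine intervalIntegral.integral_congr fun p _ => ?_
      simp
    have hPh1 : Ph 1 q = (∫ p in (0:ℝ)..(π / 2), 1 / (√(1 - q * sin p ^ 2) * √(1 - q * cos p ^ 2)))
        - 2 * q * ∫ p in (0:ℝ)..(π / 2), sin p ^ 2 / (√(1 - q * sin p ^ 2) * √(1 - q * cos p ^ 2)) := by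
      unfold Ph
      rw [← intervalIntegral.integral_const_mul, ← intervalIntegral.integral_sub]
      · refine intervalIntegral.integral_congr fun p _ => ?_
        have hle : |√q * sin p| ≤ 1 := by
          rw [abs_mul, abs_of_pos hs0]
          have := abs_sin_le_one p
          nlinarith [abs_nonneg (sin p)]
        have hc : cos (2 * ((1 : ℕ) : ℝ) * arcsin (√q * sin p)) = 1 - 2 * (q * sin p ^ 2) := by
          rw [Nat.cast_one, mul_one, Real.cos_two_mul, Real.cos_sq',
            Real.sin_arcsin (abs_le.1 hle).1 (abs_le.1 hle).2, mul_pow, hsq]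
          ring
        rw [hc]
        ring
      · exact P3_int h0 h1 _ (by fun_prop) _ _
      · exact (P3_int h0 h1 _ (by fun_prop) _ _).const_mul _
    rw [hPh1, hPh0]
    linarith [congrArg (fun t => q * t) hadd, congrArg (fun t => q * t) hsym]

end Pool.Agent.R259.CI
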