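import Mathlib
import Pool.Agent.R259.CI.Defs

set_option autoImplicit false
set_option maxHeartbeats 400000

namespace Pool.Agent.R259.CI

open Real Set Filter Topology MeasureTheory

/-- coefficients of `(1-x)^(-1/2)` -/
noncomputable def p4_b (n : ℕ) : ℝ := Ring.multichoose (1 / 2 : ℝ) n

lemma p4_b_zero : p4_b 0 = 1 := Ring.multichoose_zero_right _

lemma p4_b_succ (n : ℕ) : p4_b (n + 1) = p4_b n * ((n + 1 / 2) / (n + 1)) := by
  have h1 := Ring.factorial_nsmul_multichoose_eq_ascPochhammer (1 / 2 : ℝ) n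
  have h2 := Ring.factorial_nsmul_multichoose_eq_ascPochhammer (1 / 2 : ℝ) (n + 1)
  rw [ascPochhammer_succ_right, Polynomial.smeval_mul, ← h1, Polynomial.smeval_add,
    Polynomial.smeval_X, pow_one] at h2
  have h3 : (Polynomial.smeval ((n : ℕ) : Polynomial ℕ) (1 / 2 : ℝ)) = n := by
    rw [Polynomial.smeval_natCast]
    simp
  rw [h3, Nat.factorial_succ, nsmul_eq_mul, nsmul_eq_mul] at h2
  have h4 : (n.factorial : ℝ) ≠ 0 := by positivity
  have h5 : (n + 1 : ℝ) ≠ 0 := by positivity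
  have h6 : (n.factorial : ℝ) * ((n + 1) * p4_b (n + 1)) =
      (n.factorial : ℝ) * (p4_b n * (1 / 2 + n)) := by
    unfold p4_b
    push_cast at h2
    linear_combination h2
  have h7 := mul_left_cancel₀ h4 h6
  field_simp
  linarith

lemma p4_b_pos (n : ℕ) : 0 < p4_b n := by
  induction n with
  | zero => rw [p4_b_zero]; norm_num
  | succ n ih => rw [p4_b_succ]; positivity

lemma p4_b_anti (n : ℕ) : p4_b (n + 1) ≤ p4_b n := by
  rw [p4_b_succ]
  refine mul_le_of_le_one_right (p4_b_pos n).le ?_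
  rw [div_le_one (by positivity)]
  linarith

lemma p4_hasSum {x : ℝ} (h0 : 0 ≤ x) (h1 : x < 1) :
    HasSum (fun n => p4_b n * x ^ n) (1 / √(1 - x)) := by
  have h := Real.one_div_one_sub_rpow_hasFPowerSeriesOnBall_zero (1 / 2)
  have hx : x ∈ Metric.eball (0 : ℝ) 1 := by
    simp only [Metric.mem_eball, edist_zero_right]
    rw [Real.enorm_eq_ofReal h0, ENNReal.ofReal_lt_one]
    exact h1
  have h2 := h.hasSum hx
  rw [zero_add] at h2
  rw [Real.sqrt_eq_rpow]
  have e' : (fun n => p4_b n * x ^ n) = fun n => (FormalMultilinearSeries.ofScalars ℝ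
      (fun n : ℕ => Ring.choose (1 / 2 + (n : ℝ) - 1) n) n) fun _ => x := by
    funext n
    have e : p4_b n = Ring.choose (1 / 2 + (n : ℝ) - 1) n := Ring.multichoose_eq _ _
    rw [e]
    simp [FormalMultilinearSeries.ofScalars]
  rw [e']
  exact h2

/-- the coefficient functions -/
noncomputable def p4_w (n : ℕ) (p : ℝ) : ℝ :=
  ∑ ij ∈ Finset.HasAntidiagonal.antidiagonal n, p4_b ij.1 * p4_b ij.2 * (sin p ^ 2) ^ ij.1 * (cos p ^ 2) ^ ij.2

lemma p4_w_cont (n : ℕ) : Continuous (p4_w n) := by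
  unfold p4_w
  fun_prop

lemma p4_w_nonneg (n : ℕ) (p : ℝ) : 0 ≤ p4_w n p := by
  unfold p4_w
  refine Finset.sum_nonneg fun ij _ => ?_
  have h1 := (p4_b_pos ij.1).le
  have h2 := (p4_b_pos ij.2).le
  positivity

lemma p4_w_pos (n : ℕ) {p : ℝ} (h0 : 0 < p) (h1 : p < π / 2) : 0 < p4_w n p := by
  unfold p4_w
  have hs : 0 < sin p := sin_pos_of_pos_of_lt_pi h0 (by linarith)
  have hc : 0 < cos p := cos_pos_of_mem_Ioo ⟨by linarith, h1⟩
  refine Finset.sum_pos (fun ij _ => ?_) ⟨(0, n), by simp⟩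
  have h1 := (p4_b_pos ij.1)
  have h2 := (p4_b_pos ij.2)
  positivity

lemma p4_w_anti (n : ℕ) (p : ℝ) : p4_w (n + 1) p ≤ p4_w n p := by
  set s := sin p ^ 2 with hs
  set c := cos p ^ 2 with hc
  have hs0 : 0 ≤ s := sq_nonneg _
  have hc0 : 0 ≤ c := sq_nonneg _
  have hsc : s + c = 1 := sin_sq_add_cos_sq p
  have e1 : p4_w n p = ∑ ij ∈ Finset.HasAntidiagonal.antidiagonal n, p4_b ij.1 * p4_b ij.2 * s ^ (ij.1 + 1) * c ^ ij.2
      + ∑ ij ∈ Finset.HasAntidiagonal.antidiagonal n, p4_b ij.1 * p4_b ij.2 * s ^ ij.1 * c ^ (ij.2 + 1) := by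
    rw [← Finset.sum_add_distrib]
    unfold p4_w
    refine Finset.sum_congr rfl fun ij _ => ?_
    rw [← hs, ← hc]
    calc p4_b ij.1 * p4_b ij.2 * s ^ ij.1 * c ^ ij.2
        = p4_b ij.1 * p4_b ij.2 * s ^ ij.1 * c ^ ij.2 * (s + c) := by rw [hsc, mul_one]
      _ = _ := by ring
  have e2 : p4_w (n + 1) p = p4_b 0 * p4_b (n + 1) * s ^ 0 * c ^ (n + 1) +
      ∑ ij ∈ Finset.HasAntidiagonal.antidiagonal n, p4_b (ij.1 + 1) * p4_b ij.2 * s ^ (ij.1 + 1) * c ^ ij.2 := by
    unfold p4_w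
    rw [← hs, ← hc, Finset.Nat.sum_antidiagonal_succ]
  rw [e1, e2, add_comm]
  refine add_le_add (Finset.sum_le_sum fun ij _ => ?_) ?_
  · have h1 := (p4_b_pos ij.2).le
    have h2 := p4_b_anti ij.1
    gcongr
  · refine le_trans ?_ (Finset.single_le_sum (f := fun ij : ℕ × ℕ =>
      p4_b ij.1 * p4_b ij.2 * s ^ ij.1 * c ^ (ij.2 + 1)) (fun ij _ => ?_)
      (show (0, n) ∈ Finset.HasAntidiagonal.antidiagonal n by simp))
    · have h1 := (p4_b_pos 0).le
      have h2 := p4_b_anti n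
      simp only
      gcongr
    · have h1 := (p4_b_pos ij.1).le
      have h2 := (p4_b_pos ij.2).le
      positivity

lemma p4_w_zero (p : ℝ) : p4_w 0 p = 1 := by
  simp [p4_w, p4_b_zero]

lemma p4_w_one (p : ℝ) : p4_w 1 p = 1 / 2 := by
  have h1 : p4_b 1 = 1 / 2 := by
    have := p4_b_succ 0
    rw [p4_b_zero] at this
    norm_num at this
    norm_num
    exact this
  have h2 : sin p ^ 2 + cos p ^ 2 = 1 := sin_sq_add_cos_sq p
  unfold p4_w
  rw [Finset.Nat.sum_antidiagonal_succ]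
  simp [p4_b_zero, h1]
  linarith

lemma p4_w_le_one (n : ℕ) (p : ℝ) : p4_w n p ≤ 1 := by
  induction n with
  | zero => rw [p4_w_zero]
  | succ n ih => exact (p4_w_anti n p).trans ih

lemma p4_prod {q : ℝ} (h0 : 0 < q) (h1 : q < 1) (p : ℝ) :
    HasSum (fun n => p4_w n p * q ^ n) (1 / (√(1 - q * sin p ^ 2) * √(1 - q * cos p ^ 2))) := by
  have hs1 : sin p ^ 2 ≤ 1 := sin_sq_le_one p
  have hc1 : cos p ^ 2 ≤ 1 := cos_sq_le_one p
  have hqs0 : 0 ≤ q * sin p ^ 2 := by positivity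
  have hqc0 : 0 ≤ q * cos p ^ 2 := by positivity
  have hqs : q * sin p ^ 2 < 1 := by nlinarith
  have hqc : q * cos p ^ 2 < 1 := by nlinarith
  have a1 := p4_hasSum hqs0 hqs
  have a2 := p4_hasSum hqc0 hqc
  have n1 : Summable fun n => ‖p4_b n * (q * sin p ^ 2) ^ n‖ := a1.summable.norm
  have n2 : Summable fun n => ‖p4_b n * (q * cos p ^ 2) ^ n‖ := a2.summable.norm
  have h3 := tsum_mul_tsum_eq_tsum_sum_antidiagonal_of_summable_norm n1 n2
  have h4 := (summable_norm_sum_mul_antidiagonal_of_summable_norm n1 n2).of_norm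
  rw [a1.tsum_eq, a2.tsum_eq] at h3
  have h5 := h4.hasSum
  rw [← h3] at h5
  have h6 : 1 / √(1 - q * sin p ^ 2) * (1 / √(1 - q * cos p ^ 2)) =
      1 / (√(1 - q * sin p ^ 2) * √(1 - q * cos p ^ 2)) := by
    rw [one_div_mul_one_div]
  rw [h6] at h5
  have e' : (fun n => p4_w n p * q ^ n) = fun n =>
      ∑ kl ∈ Finset.HasAntidiagonal.antidiagonal n,
        p4_b kl.1 * (q * sin p ^ 2) ^ kl.1 * (p4_b kl.2 * (q * cos p ^ 2) ^ kl.2) := by
    funext n
    unfold p4_w
    rw [Finset.sum_mul]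
    refine Finset.sum_congr rfl fun ij hij => ?_
    have e : ij.1 + ij.2 = n := Finset.HasAntidiagonal.mem_antidiagonal.1 hij
    rw [← e, mul_pow, mul_pow, pow_add]
    ring
  rw [e']
  exact h5

theorem p4 : P4 := by
  have hpi := Real.pi_pos
  refine ⟨fun n => ∫ p in (0 : ℝ)..(π / 2), p4_w n p, fun n => ?_, fun n => ?_, ?_, ?_⟩
  · exact intervalIntegral.intervalIntegral_pos_of_pos_on
      ((p4_w_cont n).intervalIntegrable _ _) (fun x hx => p4_w_pos n hx.1 hx.2) (by positivity)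
  · exact intervalIntegral.integral_mono_on (by positivity)
      ((p4_w_cont _).intervalIntegrable _ _) ((p4_w_cont _).intervalIntegrable _ _)
      (fun x _ => p4_w_anti n x)
  · simp only [p4_w_zero, p4_w_one, intervalIntegral.integral_const, smul_eq_mul]
    linarith
  · intro q h0 h1
    have key := intervalIntegral.hasSum_integral_of_dominated_convergence (μ := volume)
      (a := 0) (b := π / 2) (F := fun n p => p4_w n p * q ^ n)
      (f := fun p => 1 / (√(1 - q * sin p ^ 2) * √(1 - q * cos p ^ 2)))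
      (fun n _ => q ^ n) (fun n => ((p4_w_cont n).mul_const _).aestronglyMeasurable)
      (fun n => Eventually.of_forall fun p _ => ?_)
      (Eventually.of_forall fun p _ => summable_geometric_of_lt_one h0.le h1)
      (by simp) (Eventually.of_forall fun p _ => p4_prod h0 h1 p)
    · have e1 : Ph 0 q = ∫ p in (0 : ℝ)..(π / 2),
          1 / (√(1 - q * sin p ^ 2) * √(1 - q * cos p ^ 2)) := by
        unfold Ph
        simp
      rw [e1]
      simpa only [intervalIntegral.integral_mul_const] using key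
    · rw [norm_mul, Real.norm_eq_abs, Real.norm_eq_abs, abs_of_nonneg (p4_w_nonneg n p),
        abs_of_nonneg (by positivity)]
      exact mul_le_of_le_one_left (by positivity) (p4_w_le_one n p)

end Pool.Agent.R259.CI
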