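import Mathlib
import Pool.Agent.R259.CI.Defs

/-! # P5: boundary behaviour and bounds (helper916) -/

set_option autoImplicit false

namespace Pool.Agent.R259.CI

open Real Set Filter Topology MeasureTheory

/-- the integrand of `G` -/
noncomputable def p5_I (k : ℕ) (q p : ℝ) : ℝ :=
  sin (2 * k * arcsin (√q * sin p)) * (2 * √q * sin p / √(1 - q * cos p ^ 2))

theorem p5_den (q p : ℝ) (h1 : q < 1) : 0 < 1 - q * cos p ^ 2 := by
  have h2 : cos p ^ 2 ≤ 1 := by
    have := cos_sq_add_sin_sq p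
    nlinarith [sq_nonneg (sin p)]
  have h3 := sq_nonneg (cos p)
  rcases le_or_gt q 0 with h | h
  · nlinarith
  · nlinarith

theorem p5_den' (q p : ℝ) (h1 : q < 1) : 0 < 1 - q * sin p ^ 2 := by
  have h2 : sin p ^ 2 ≤ 1 := by
    have := cos_sq_add_sin_sq p
    nlinarith [sq_nonneg (cos p)]
  have h3 := sq_nonneg (sin p)
  rcases le_or_gt q 0 with h | h
  · nlinarith
  · nlinarith

theorem p5_bound (k : ℕ) (q p : ℝ) (h0 : 0 ≤ q) (h1 : q < 1) : |p5_I k q p| ≤ 2 := by
  unfold p5_I
  have hd := p5_den q p h1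
  have hs : 0 < √(1 - q * cos p ^ 2) := Real.sqrt_pos.mpr hd
  have key : |√q * sin p| ≤ √(1 - q * cos p ^ 2) := by
    apply Real.abs_le_sqrt
    rw [mul_pow, Real.sq_sqrt h0]
    have := cos_sq_add_sin_sq p
    nlinarith
  rw [abs_mul, abs_div, abs_of_pos hs]
  have h3 : |2 * √q * sin p| = 2 * |√q * sin p| := by
    rw [mul_assoc, abs_mul, abs_of_pos (by norm_num : (0 : ℝ) < 2)]
  rw [h3]
  have h4 : 2 * |√q * sin p| / √(1 - q * cos p ^ 2) ≤ 2 := by
    rw [div_le_iff₀ hs]; linarith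
  have h5 := abs_sin_le_one (2 * k * arcsin (√q * sin p))
  have h6 := mul_le_mul h5 h4 (by positivity) (by norm_num : (0 : ℝ) ≤ 1)
  linarith

theorem p5_cont (k : ℕ) (q : ℝ) (h1 : q < 1) : Continuous (p5_I k q) := by
  unfold p5_I
  apply Continuous.mul
  · fun_prop
  · apply Continuous.div (by fun_prop) (by fun_prop)
    intro p
    exact (Real.sqrt_pos.mpr (p5_den q p h1)).ne'

theorem p5_tend (k : ℕ) (l : Filter ℝ) [l.IsCountablyGenerated]
    (hl : ∀ᶠ q in l, 0 ≤ q ∧ q < 1) (f : ℝ → ℝ)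
    (hf : ∀ p ∈ Ioc (0 : ℝ) (π / 2), Tendsto (fun q => p5_I k q p) l (𝓝 (f p))) :
    Tendsto (G k) l (𝓝 (∫ p in (0:ℝ)..(π / 2), f p)) := by
  have : G k = fun q => ∫ p in (0:ℝ)..(π / 2), p5_I k q p := rfl
  rw [this]
  apply intervalIntegral.tendsto_integral_filter_of_dominated_convergence (fun _ => 2)
  · filter_upwards [hl] with q hq
    exact (p5_cont k q hq.2).aestronglyMeasurable
  · filter_upwards [hl] with q hq
    filter_upwards with p _
    exact p5_bound k q p hq.1 hq.2
  · exact intervalIntegrable_const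
  · filter_upwards with p hp
    rw [uIoc_of_le (by positivity)] at hp
    exact hf p hp

theorem p5_1 (k : ℕ) : Tendsto (G k) (𝓝[>] 0) (𝓝 0) := by
  have h := p5_tend k (𝓝[>] 0) (by
    have h1 : ∀ᶠ q in 𝓝[>] (0:ℝ), q < 1 :=
      eventually_nhdsWithin_of_eventually_nhds (eventually_lt_nhds zero_lt_one)
    filter_upwards [h1, self_mem_nhdsWithin] with q hq hq'
    exact ⟨le_of_lt hq', hq⟩) (fun _ => 0) (by
    intro p _
    have hc : ContinuousAt (fun q => p5_I k q p) 0 := by
      unfold p5_I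
      apply ContinuousAt.mul
      · fun_prop
      · apply ContinuousAt.div (by fun_prop) (by fun_prop)
        simp
    have h2 := hc.tendsto
    have h3 : p5_I k 0 p = 0 := by unfold p5_I; simp
    rw [h3] at h2
    exact h2.mono_left nhdsWithin_le_nhds)
  simpa using h

theorem p5_int (k : ℕ) (hk : 1 ≤ k) :
    ∫ p in (0:ℝ)..(π / 2), sin (2 * k * p) * 2 = (1 - cos (k * π)) / k := by
  have hk0 : (k : ℝ) ≠ 0 := by positivity
  have h : ∀ p ∈ uIcc (0:ℝ) (π / 2), HasDerivAt (fun p : ℝ => -cos (2 * k * p) / k)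
      (sin (2 * k * p) * 2) p := by
    intro p _
    have h1 : HasDerivAt (fun p : ℝ => 2 * (k : ℝ) * p) (2 * k) p := by
      simpa using (hasDerivAt_id p).const_mul (2 * (k : ℝ))
    have h2 := (h1.cos).neg.div_const (k : ℝ)
    have e : -(-sin (2 * (k : ℝ) * p) * (2 * k)) / (k : ℝ) = sin (2 * k * p) * 2 := by
      rw [neg_mul, neg_neg]
      field_simp
    rw [e] at h2
    exact h2
  rw [intervalIntegral.integral_eq_sub_of_hasDerivAt h]
  · have e : 2 * (k : ℝ) * (π / 2) = k * π := by ring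
    rw [e]
    simp
    ring
  · exact Continuous.intervalIntegrable (by fun_prop) _ _

theorem p5_2 (k : ℕ) (hk : 1 ≤ k) :
    Tendsto (G k) (𝓝[<] 1) (𝓝 ((1 - cos (k * π)) / k)) := by
  have h := p5_tend k (𝓝[<] 1) (by
    have h1 : ∀ᶠ q in 𝓝[<] (1:ℝ), 0 < q :=
      eventually_nhdsWithin_of_eventually_nhds (eventually_gt_nhds zero_lt_one)
    filter_upwards [h1, self_mem_nhdsWithin] with q hq hq'
    exact ⟨le_of_lt hq, hq'⟩) (fun p => sin (2 * k * p) * 2) (by
    intro p hp
    have hpi := pi_pos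
    have hs : 0 < sin p := sin_pos_of_pos_of_lt_pi hp.1 (by linarith [hp.2])
    have hsq : √(1 - 1 * cos p ^ 2) = sin p := by
      have : 1 - 1 * cos p ^ 2 = sin p ^ 2 := by
        have := cos_sq_add_sin_sq p; linarith
      rw [this, Real.sqrt_sq hs.le]
    have hc : ContinuousAt (fun q => p5_I k q p) 1 := by
      unfold p5_I
      apply ContinuousAt.mul
      · fun_prop
      · apply ContinuousAt.div (by fun_prop) (by fun_prop)
        rw [hsq]; exact hs.ne'
    have h2 := hc.tendsto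
    have h3 : p5_I k 1 p = sin (2 * k * p) * 2 := by
      unfold p5_I
      rw [hsq, Real.sqrt_one, one_mul, arcsin_sin (by linarith [hp.1]) hp.2]
      have : 2 * 1 * sin p / sin p = 2 := by field_simp
      rw [this]
    rw [h3] at h2
    exact h2.mono_left nhdsWithin_le_nhds)
  rw [p5_int k hk] at h
  exact h

theorem p5_3 (k : ℕ) (q : ℝ) (h0 : 0 < q) (h1 : q < 1) : |G k q| ≤ π := by
  have : G k q = ∫ p in (0:ℝ)..(π / 2), p5_I k q p := rfl
  rw [this]
  have h := intervalIntegral.norm_integral_le_of_norm_le_const (a := 0) (b := π / 2)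
    (f := p5_I k q) (C := 2) (fun p _ => p5_bound k q p h0.le h1)
  rw [Real.norm_eq_abs, sub_zero, abs_of_pos (by positivity : (0:ℝ) < π / 2)] at h
  linarith

theorem p5_lower (q : ℝ) (h0 : 0 < q) (h1 : q < 1) :
    log ((√(1 - q) + π / 2) / √(1 - q)) ≤ Ph 0 q := by
  have hc : 0 < √(1 - q) := Real.sqrt_pos.mpr (by linarith)
  have hpi := pi_pos
  have e1 : ∫ p in (0:ℝ)..(π / 2), 1 / (√(1 - q) + π / 2 - p) =
      log ((√(1 - q) + π / 2) / √(1 - q)) := by
    have := intervalIntegral.integral_comp_sub_left (a := 0) (b := π / 2)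
      (fun x : ℝ => 1 / x) (√(1 - q) + π / 2)
    rw [this, integral_one_div_of_pos]
    · congr 1; congr 1 <;> ring
    · linarith
    · linarith
  rw [← e1]
  unfold Ph
  apply intervalIntegral.integral_mono_on (by positivity)
  · apply ContinuousOn.intervalIntegrable
    rw [uIcc_of_le (by positivity)]
    apply ContinuousOn.div continuousOn_const (by fun_prop)
    intro p hp
    have := hp.2
    have : 0 < √(1 - q) + π / 2 - p := by linarith
    exact this.ne'
  · apply Continuous.intervalIntegrable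
    apply Continuous.div (by fun_prop) (by fun_prop)
    intro p
    exact (mul_pos (Real.sqrt_pos.mpr (p5_den' q p h1)) (Real.sqrt_pos.mpr (p5_den q p h1))).ne'
  · intro p hp
    have hA := Real.sqrt_pos.mpr (p5_den' q p h1)
    have hB := Real.sqrt_pos.mpr (p5_den q p h1)
    have hB1 : √(1 - q * cos p ^ 2) ≤ 1 := by
      rw [Real.sqrt_le_one]
      nlinarith [sq_nonneg (cos p)]
    have hp2 : 0 ≤ π / 2 - p := by linarith [hp.2]
    have hcos : cos p ^ 2 ≤ (π / 2 - p) ^ 2 := by
      have e : cos p = sin (π / 2 - p) := by rw [sin_pi_div_two_sub]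
      rw [e]
      have h3 : sin (π / 2 - p) ≤ π / 2 - p := sin_le hp2
      have h4 : 0 ≤ sin (π / 2 - p) := sin_nonneg_of_nonneg_of_le_pi hp2 (by linarith [hp.1])
      exact pow_le_pow_left₀ h4 h3 2
    have hA1 : √(1 - q * sin p ^ 2) ≤ √(1 - q) + π / 2 - p := by
      have e : √(1 - q) + π / 2 - p = √(1 - q) + (π / 2 - p) := by ring
      rw [e]
      apply Real.sqrt_le_iff.mpr
      refine ⟨by positivity, ?_⟩
      have h5 := Real.sq_sqrt (show 0 ≤ 1 - q by linarith)
      have h6 := cos_sq_add_sin_sq p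
      have h7 : 0 ≤ √(1 - q) * (π / 2 - p) := by positivity
      nlinarith [sq_nonneg (cos p)]
    have hcos0 : cos (2 * (0 : ℕ) * arcsin (√q * sin p)) = 1 := by simp
    rw [hcos0]
    apply one_div_le_one_div_of_le (mul_pos hA hB)
    calc √(1 - q * sin p ^ 2) * √(1 - q * cos p ^ 2) ≤ √(1 - q * sin p ^ 2) * 1 :=
          mul_le_mul_of_nonneg_left hB1 hA.le
      _ ≤ _ := by rw [mul_one]; exact hA1

theorem p5_4 : Tendsto (Ph 0) (𝓝[<] 1) atTop := by
  have h1 : ∀ᶠ q in 𝓝[<] (1:ℝ), 0 < q :=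
    eventually_nhdsWithin_of_eventually_nhds (eventually_gt_nhds zero_lt_one)
  have h2 : Tendsto (fun q : ℝ => log ((√(1 - q) + π / 2) / √(1 - q))) (𝓝[<] 1) atTop := by
    apply Real.tendsto_log_atTop.comp
    have h3 : Tendsto (fun q : ℝ => √(1 - q)) (𝓝[<] 1) (𝓝[>] 0) := by
      apply tendsto_nhdsWithin_of_tendsto_nhds_of_eventually_within
      · have : ContinuousAt (fun q : ℝ => √(1 - q)) 1 := by fun_prop
        have h4 := this.tendsto
        simp only [sub_self, Real.sqrt_zero] at h4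
        exact h4.mono_left nhdsWithin_le_nhds
      · filter_upwards [self_mem_nhdsWithin] with q hq
        have : q < 1 := hq
        exact Real.sqrt_pos.mpr (by linarith)
    have h4 : Tendsto (fun q : ℝ => π / 2 * (√(1 - q))⁻¹) (𝓝[<] 1) atTop :=
      (tendsto_inv_nhdsGT_zero.comp h3).const_mul_atTop (by positivity)
    have h5 := tendsto_atTop_add_const_left (𝓝[<] (1:ℝ)) 1 h4
    apply h5.congr'
    filter_upwards [self_mem_nhdsWithin] with q hq
    have : q < 1 := hq
    have h6 : 0 < √(1 - q) := Real.sqrt_pos.mpr (by linarith)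
    field_simp
  apply tendsto_atTop_mono' _ _ h2
  filter_upwards [h1, self_mem_nhdsWithin] with q hq hq'
  exact p5_lower q hq hq'

theorem p5 : P5 := ⟨p5_1, fun k hk => p5_2 k hk, fun k q h0 h1 => p5_3 k q h0 h1, p5_4⟩

end Pool.Agent.R259.CI
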