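import Mathlib
import Pool.Agent.R259.CI.Defs

/-!
# MP_c729a8_an, piece P6: signs of `G k` at the points `sin(Nπ/2k)²`
-/

set_option autoImplicit false

namespace Pool.Agent.R259.CI

open Real Set Filter Topology MeasureTheory

lemma p6_sqrt_c_pos {q : ℝ} (h0 : 0 < q) (h1 : q < 1) (p : ℝ) : 0 < √(1 - q * cos p ^ 2) := by
  apply Real.sqrt_pos.2
  nlinarith [cos_sq_le_one p, sq_nonneg (cos p)]

lemma p6_sqrt_s_pos {q : ℝ} (h0 : 0 < q) (h1 : q < 1) (p : ℝ) : 0 < √(1 - q * sin p ^ 2) := by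
  apply Real.sqrt_pos.2
  nlinarith [sin_sq_le_one p, sq_nonneg (sin p)]

lemma p6_cont_integrand (k : ℕ) {q : ℝ} (h0 : 0 < q) (h1 : q < 1) :
    Continuous fun p : ℝ => sin (2 * k * arcsin (√q * sin p)) *
      (2 * √q * sin p / √(1 - q * cos p ^ 2)) := by
  apply Continuous.mul
  · fun_prop
  · apply Continuous.div
    · fun_prop
    · fun_prop
    · intro p
      exact (p6_sqrt_c_pos h0 h1 p).ne'

lemma p6_second (k : ℕ) (q : ℝ) (hk : 1 ≤ k) (h0 : 0 < q) (h1 : q < 1)
    (hq : q ≤ sin (π / (2 * k)) ^ 2) : 0 < G k q := by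
  have hk' : (0 : ℝ) < k := by exact_mod_cast hk
  unfold G
  apply intervalIntegral.intervalIntegral_pos_of_pos_on
  · exact (p6_cont_integrand k h0 h1).intervalIntegrable _ _
  · intro p hp
    have hsp : 0 < sin p := sin_pos_of_pos_of_lt_pi hp.1 (by linarith [hp.2, pi_pos])
    have hsp1 : sin p < 1 := by
      rw [← sin_pi_div_two]
      exact sin_lt_sin_of_lt_of_le_pi_div_two (by linarith [hp.1, pi_pos]) le_rfl hp.2
    have hsq : 0 < √q := Real.sqrt_pos.2 h0
    have hpik : 0 < π / (2 * k) := by positivity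
    have hpik2 : π / (2 * k) ≤ π / 2 := by
      apply div_le_div_of_nonneg_left pi_pos.le (by norm_num)
      have : (1 : ℝ) ≤ k := by exact_mod_cast hk
      linarith
    have hsin : 0 ≤ sin (π / (2 * k)) := sin_nonneg_of_nonneg_of_le_pi hpik.le (by linarith [pi_pos])
    have hle : √q ≤ sin (π / (2 * k)) := by
      rw [← Real.sqrt_sq hsin]
      exact Real.sqrt_le_sqrt hq
    have hlt : √q * sin p < sin (π / (2 * k)) := by nlinarith
    have hpos : 0 < √q * sin p := mul_pos hsq hsp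
    have hA0 : 0 < arcsin (√q * sin p) := arcsin_pos.2 hpos
    have hA1 : arcsin (√q * sin p) < π / (2 * k) := by
      rw [← arcsin_sin (x := π / (2 * k)) (by linarith [pi_pos]) hpik2]
      apply arcsin_lt_arcsin _ hlt (sin_le_one _)
      linarith
    apply mul_pos
    · apply sin_pos_of_pos_of_lt_pi
      · positivity
      · have : 2 * (k : ℝ) * arcsin (√q * sin p) < 2 * k * (π / (2 * k)) := by
          apply mul_lt_mul_of_pos_left hA1 (by positivity)
        have h2 : 2 * (k : ℝ) * (π / (2 * k)) = π := by field_simp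
        linarith
    · have := p6_sqrt_c_pos h0 h1 p
      positivity
  · positivity

/-- the weight `ω = θ_p⁻¹ · (-l_p)` -/
noncomputable def p6_om (q p : ℝ) : ℝ :=
  (sin p * √(1 - q * sin p ^ 2)) / (cos p * √(1 - q * cos p ^ 2))

lemma p6_om_deriv {q : ℝ} (h0 : 0 < q) (h1 : q < 1) {p : ℝ} (hp : cos p ≠ 0) :
    HasDerivAt (p6_om q) ((1 - q) * (1 - 2 * q * sin p ^ 2 * cos p ^ 2) /
      (cos p ^ 2 * √(1 - q * sin p ^ 2) * √(1 - q * cos p ^ 2) ^ 3)) p := by
  have hs := p6_sqrt_s_pos h0 h1 p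
  have hc := p6_sqrt_c_pos h0 h1 p
  have hs' : 1 - q * sin p ^ 2 ≠ 0 := (Real.sqrt_pos.1 hs).ne'
  have hc' : 1 - q * cos p ^ 2 ≠ 0 := (Real.sqrt_pos.1 hc).ne'
  have hss : √(1 - q * sin p ^ 2) ^ 2 = 1 - q * sin p ^ 2 := Real.sq_sqrt (Real.sqrt_pos.1 hs).le
  have hcc : √(1 - q * cos p ^ 2) ^ 2 = 1 - q * cos p ^ 2 := Real.sq_sqrt (Real.sqrt_pos.1 hc).le
  have d1 : HasDerivAt (fun p => √(1 - q * sin p ^ 2))
      ((-(q * (2 * sin p * cos p))) / (2 * √(1 - q * sin p ^ 2))) p := by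
    have h : HasDerivAt (fun p => 1 - q * sin p ^ 2) (-(q * (2 * sin p * cos p))) p := by
      have := (((hasDerivAt_sin p).pow 2).const_mul q).const_sub 1
      refine HasDerivAt.congr_deriv this ?_
      push_cast
      ring
    exact HasDerivAt.sqrt h hs'
  have d2 : HasDerivAt (fun p => √(1 - q * cos p ^ 2))
      ((q * (2 * cos p * sin p)) / (2 * √(1 - q * cos p ^ 2))) p := by
    have h : HasDerivAt (fun p => 1 - q * cos p ^ 2) (q * (2 * cos p * sin p)) p := by
      have := (((hasDerivAt_cos p).pow 2).const_mul q).const_sub 1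
      refine HasDerivAt.congr_deriv this ?_
      push_cast
      ring
    exact HasDerivAt.sqrt h hc'
  have dn := (hasDerivAt_sin p).mul d1
  have dd := (hasDerivAt_cos p).mul d2
  have hd := dn.div dd (mul_ne_zero hp hc.ne')
  refine HasDerivAt.congr_deriv hd ?_
  simp only [Pi.mul_apply]
  clear hd dd dn d1 d2
  have hsc : sin p ^ 2 + cos p ^ 2 = 1 := sin_sq_add_cos_sq p
  set s := √(1 - q * sin p ^ 2) with hsdef
  set c := √(1 - q * cos p ^ 2) with hcdef
  set S := sin p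
  set C := cos p
  have hs0 : s ≠ 0 := hs.ne'
  have hc0 : c ≠ 0 := hc.ne'
  field_simp
  rw [hss, hcc]
  have hS : S ^ 2 = 1 - C ^ 2 := by linarith
  rw [hS]
  ring

lemma p6_om_deriv_pos {q : ℝ} (h0 : 0 < q) (h1 : q < 1) {p : ℝ} (hp : cos p ≠ 0) :
    0 < (1 - q) * (1 - 2 * q * sin p ^ 2 * cos p ^ 2) /
      (cos p ^ 2 * √(1 - q * sin p ^ 2) * √(1 - q * cos p ^ 2) ^ 3) := by
  have hs := p6_sqrt_s_pos h0 h1 p
  have hc := p6_sqrt_c_pos h0 h1 p
  have hC : 0 < cos p ^ 2 := by positivity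
  have hsc : sin p ^ 2 + cos p ^ 2 = 1 := sin_sq_add_cos_sq p
  apply div_pos
  · apply mul_pos (by linarith)
    have h4 : 4 * (sin p ^ 2 * cos p ^ 2) ≤ 1 := by
      nlinarith [sq_nonneg (sin p ^ 2 - cos p ^ 2)]
    have h5 : 0 ≤ sin p ^ 2 * cos p ^ 2 := by positivity
    nlinarith
  · positivity

/-- `e` -/
noncomputable def p6_e (k : ℕ) (σ q p : ℝ) : ℝ :=
  (1 + σ * cos (2 * k * arcsin (√q * sin p))) / k

lemma p6_arg {q : ℝ} (h0 : 0 < q) (h1 : q < 1) (p : ℝ) : |√q * sin p| < 1 := by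
  have hsq : √q < 1 := by
    rw [Real.sqrt_lt' one_pos]
    simpa using h1
  have hsq0 : 0 < √q := Real.sqrt_pos.2 h0
  rw [abs_mul, abs_of_pos hsq0]
  nlinarith [abs_sin_le_one p, abs_nonneg (sin p)]

lemma p6_A_deriv {q : ℝ} (h0 : 0 < q) (h1 : q < 1) (p : ℝ) :
    HasDerivAt (fun p => arcsin (√q * sin p)) (√q * cos p / √(1 - q * sin p ^ 2)) p := by
  have h := p6_arg h0 h1 p
  rw [abs_lt] at h
  have h2 := (hasDerivAt_arcsin h.1.ne' h.2.ne).comp p ((hasDerivAt_sin p).const_mul (√q))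
  refine HasDerivAt.congr_deriv h2 ?_
  rw [mul_pow, Real.sq_sqrt h0.le]
  ring

lemma p6_e_deriv (k : ℕ) (hk : 0 < k) (σ : ℝ) {q : ℝ} (h0 : 0 < q) (h1 : q < 1) (p : ℝ) :
    HasDerivAt (p6_e k σ q) (-σ * sin (2 * k * arcsin (√q * sin p)) *
      (2 * √q * cos p / √(1 - q * sin p ^ 2))) p := by
  have hk' : (0 : ℝ) < k := by exact_mod_cast hk
  have h := ((((p6_A_deriv h0 h1 p).const_mul (2 * (k : ℝ))).cos.const_mul σ).const_add 1).div_const
    (k : ℝ)
  refine HasDerivAt.congr_deriv h ?_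
  have hs := p6_sqrt_s_pos h0 h1 p
  field_simp

lemma p6_e_nonneg (k : ℕ) (σ : ℝ) (hσ : σ = 1 ∨ σ = -1) (q p : ℝ) : 0 ≤ p6_e k σ q p := by
  unfold p6_e
  apply div_nonneg _ (Nat.cast_nonneg k)
  have h1 := cos_le_one (2 * k * arcsin (√q * sin p))
  have h2 := neg_one_le_cos (2 * k * arcsin (√q * sin p))
  rcases hσ with h | h <;> rw [h] <;> linarith

/-- the monotone function -/
noncomputable def p6_Psi (k : ℕ) (σ q p : ℝ) : ℝ :=
  (∫ x in (0:ℝ)..p, σ * (sin (2 * k * arcsin (√q * sin x)) *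
    (2 * √q * sin x / √(1 - q * cos x ^ 2)))) + p6_e k σ q p * p6_om q p

lemma p6_Psi_deriv (k : ℕ) (hk : 0 < k) (σ : ℝ) {q : ℝ} (h0 : 0 < q) (h1 : q < 1) {p : ℝ}
    (hp : cos p ≠ 0) :
    HasDerivAt (p6_Psi k σ q) (p6_e k σ q p * ((1 - q) * (1 - 2 * q * sin p ^ 2 * cos p ^ 2) /
      (cos p ^ 2 * √(1 - q * sin p ^ 2) * √(1 - q * cos p ^ 2) ^ 3))) p := by
  have hcont : Continuous fun x : ℝ => σ * (sin (2 * k * arcsin (√q * sin x)) *
      (2 * √q * sin x / √(1 - q * cos x ^ 2))) := continuous_const.mul (p6_cont_integrand k h0 h1)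
  have hi : HasDerivAt (fun p => ∫ x in (0:ℝ)..p, σ * (sin (2 * k * arcsin (√q * sin x)) *
    (2 * √q * sin x / √(1 - q * cos x ^ 2)))) (σ * (sin (2 * k * arcsin (√q * sin p)) *
    (2 * √q * sin p / √(1 - q * cos p ^ 2)))) p :=
    intervalIntegral.integral_hasDerivAt_right (hcont.intervalIntegrable _ _)
      (hcont.stronglyMeasurableAtFilter _ _) hcont.continuousAt
  have h := hi.add ((p6_e_deriv k hk σ h0 h1 p).mul (p6_om_deriv h0 h1 hp))
  refine HasDerivAt.congr_deriv h ?_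
  have hs := p6_sqrt_s_pos h0 h1 p
  have hc := p6_sqrt_c_pos h0 h1 p
  have : σ * (sin (2 * k * arcsin (√q * sin p)) * (2 * √q * sin p / √(1 - q * cos p ^ 2))) +
      -σ * sin (2 * k * arcsin (√q * sin p)) * (2 * √q * cos p / √(1 - q * sin p ^ 2)) *
        p6_om q p = 0 := by
    unfold p6_om
    have hs' := hs.ne'
    have hc' := hc.ne'
    generalize √(1 - q * sin p ^ 2) = s at hs' ⊢
    generalize √(1 - q * cos p ^ 2) = c at hc' ⊢
    field_simp
    ring
  linarith

lemma p6_first (k N : ℕ) (hN : 1 ≤ N) (hNk : N < k) :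
    0 < (-1) ^ (N - 1) * G k (sin (N * π / (2 * k)) ^ 2) := by
  have hk : 0 < k := by omega
  have hk' : (0 : ℝ) < k := by exact_mod_cast hk
  have hN' : (1 : ℝ) ≤ N := by exact_mod_cast hN
  have hNk' : (N : ℝ) < k := by exact_mod_cast hNk
  set q := sin (N * π / (2 * k)) ^ 2 with hq
  set a := N * π / (2 * k) with ha
  have ha0 : 0 < a := by positivity
  have ha1 : a < π / 2 := by
    rw [ha, div_lt_div_iff₀ (by positivity) (by norm_num)]
    nlinarith [pi_pos]
  have hsa0 : 0 < sin a := sin_pos_of_pos_of_lt_pi ha0 (by linarith [pi_pos])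
  have hsa1 : sin a < 1 := by
    rw [← sin_pi_div_two]
    exact sin_lt_sin_of_lt_of_le_pi_div_two (by linarith) le_rfl ha1
  have h0 : 0 < q := by positivity
  have h1 : q < 1 := by
    rw [hq]
    nlinarith
  have hsq : √q = sin a := by rw [hq, Real.sqrt_sq hsa0.le]
  set σ : ℝ := (-1) ^ (N - 1) with hσ
  have hσ' : σ = 1 ∨ σ = -1 := neg_one_pow_eq_or ℝ (N - 1)
  have hσ2 : σ * σ = 1 := by rcases hσ' with h | h <;> rw [h] <;> norm_num
  have hder := fun (p : ℝ) (hp : cos p ≠ 0) => p6_Psi_deriv k hk σ h0 h1 hp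
  have hcos : ∀ p ∈ Ico 0 (π / 2), cos p ≠ 0 := fun p hp =>
    (cos_pos_of_mem_Ioo ⟨by linarith [hp.1, pi_pos], hp.2⟩).ne'
  have hmono : MonotoneOn (p6_Psi k σ q) (Ico 0 (π / 2)) := by
    apply monotoneOn_of_deriv_nonneg (convex_Ico _ _)
    · intro p hp
      exact (hder p (hcos p hp)).continuousAt.continuousWithinAt
    · intro p hp
      rw [interior_Ico] at hp
      exact (hder p (hcos p ⟨hp.1.le, hp.2⟩)).differentiableAt.differentiableWithinAt
    · intro p hp
      rw [interior_Ico] at hp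
      rw [(hder p (hcos p ⟨hp.1.le, hp.2⟩)).deriv]
      exact mul_nonneg (p6_e_nonneg k σ hσ' q p) (p6_om_deriv_pos h0 h1 (hcos p ⟨hp.1.le, hp.2⟩)).le
  have hPsi0 : p6_Psi k σ q 0 = 0 := by
    unfold p6_Psi p6_om
    simp
  -- the integral is the limit of `Ψ`
  have hlim : Tendsto (p6_Psi k σ q) (𝓝[<] (π / 2)) (𝓝 (σ * G k q)) := by
    have hcont : Continuous fun x : ℝ => σ * (sin (2 * k * arcsin (√q * sin x)) *
        (2 * √q * sin x / √(1 - q * cos x ^ 2))) := continuous_const.mul (p6_cont_integrand k h0 h1)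
    have hi : Tendsto (fun p => ∫ x in (0:ℝ)..p, σ * (sin (2 * k * arcsin (√q * sin x)) *
        (2 * √q * sin x / √(1 - q * cos x ^ 2)))) (𝓝[<] (π / 2)) (𝓝 (σ * G k q)) := by
      have hc := intervalIntegral.continuous_primitive (μ := volume)
        (fun a b => hcont.intervalIntegrable a b) (0 : ℝ)
      have := (hc.tendsto (π / 2)).mono_left (nhdsWithin_le_nhds (s := Iio (π / 2)))
      convert this using 2
      unfold G
      rw [intervalIntegral.integral_const_mul]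
    have he : Tendsto (fun p => p6_e k σ q p * p6_om q p) (𝓝[<] (π / 2)) (𝓝 0) := by
      have hed := p6_e_deriv k hk σ h0 h1 (π / 2)
      have he0 : p6_e k σ q (π / 2) = 0 := by
        unfold p6_e
        rw [sin_pi_div_two, mul_one, hsq, arcsin_sin (by linarith) ha1.le]
        have : 2 * (k : ℝ) * a = N * π := by
          rw [ha]; field_simp
        rw [this, cos_nat_mul_pi]
        have hN1 : (-1 : ℝ) ^ N = -σ := by
          obtain ⟨j, rfl⟩ : ∃ j, N = j + 1 := ⟨N - 1, by omega⟩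
          simp [hσ, pow_succ]
        rw [hN1, mul_neg, hσ2]
        simp
      rw [cos_pi_div_two] at hed
      simp only [mul_zero, zero_div] at hed
      have hcd := hasDerivAt_cos (π / 2)
      rw [sin_pi_div_two] at hcd
      have hs1 := hed.tendsto_slope
      have hs2 := hcd.tendsto_slope
      have hs3 := hs1.div hs2 (by norm_num)
      have hs4 : Tendsto (fun p => p6_e k σ q p / cos p) (𝓝[≠] (π / 2)) (𝓝 0) := by
        rw [zero_div] at hs3
        apply hs3.congr'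
        filter_upwards [self_mem_nhdsWithin] with p hp
        have hp' : p - π / 2 ≠ 0 := sub_ne_zero.2 hp
        simp only [Pi.div_apply, slope_def_field, he0, cos_pi_div_two, sub_zero]
        rw [div_div_div_cancel_right₀ hp']
      have hs5 : Tendsto (fun p => p6_e k σ q p / cos p) (𝓝[<] (π / 2)) (𝓝 0) :=
        hs4.mono_left (nhdsWithin_mono _ (fun x hx => ne_of_lt hx))
      have hs6 : Tendsto (fun p => sin p * √(1 - q * sin p ^ 2) / √(1 - q * cos p ^ 2))
          (𝓝[<] (π / 2)) (𝓝 (sin (π / 2) * √(1 - q * sin (π / 2) ^ 2) /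
            √(1 - q * cos (π / 2) ^ 2))) := by
        apply Tendsto.mono_left _ nhdsWithin_le_nhds
        apply Continuous.tendsto
        apply Continuous.div
        · fun_prop
        · fun_prop
        · intro p
          exact (p6_sqrt_c_pos h0 h1 p).ne'
      have hs7 := hs5.mul hs6
      rw [zero_mul] at hs7
      apply hs7.congr
      intro p
      unfold p6_om
      by_cases hcp : cos p = 0
      · rw [hcp]; simp
      · have := (p6_sqrt_c_pos h0 h1 p).ne'
        field_simp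
    have := hi.add he
    rw [add_zero] at this
    exact this
  -- a point where `e > 0`
  obtain ⟨p0, hp0, hep0⟩ : ∃ p0 ∈ Ioo 0 (π / 2), 0 < p6_e k σ q p0 := by
    set b := (N - 1 / 2) * π / (2 * k) with hb
    have hb0 : 0 < b := by
      apply div_pos _ (by positivity)
      apply mul_pos (by linarith) pi_pos
    have hba : b < a := by
      rw [hb, ha]
      apply div_lt_div_of_pos_right _ (by positivity)
      nlinarith [pi_pos]
    have hsb0 : 0 < sin b := sin_pos_of_pos_of_lt_pi hb0 (by linarith [pi_pos])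
    have hsb1 : sin b < sin a := sin_lt_sin_of_lt_of_le_pi_div_two (by linarith) ha1.le hba
    have hr0 : 0 < sin b / sin a := by positivity
    have hr1 : sin b / sin a < 1 := by rwa [div_lt_one hsa0]
    refine ⟨arcsin (sin b / sin a), ⟨arcsin_pos.2 hr0, ?_⟩, ?_⟩
    · rw [← arcsin_one]
      exact arcsin_lt_arcsin (by linarith) hr1 le_rfl
    · unfold p6_e
      rw [sin_arcsin (by linarith) hr1.le, hsq, mul_div_cancel₀ _ hsa0.ne',
        arcsin_sin (by linarith) (by linarith)]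
      have : 2 * (k : ℝ) * b = N * π - π / 2 := by
        rw [hb]; field_simp
      rw [this, cos_sub_pi_div_two, sin_nat_mul_pi, mul_zero, add_zero]
      positivity
  have hdp : 0 < p6_e k σ q p0 * ((1 - q) * (1 - 2 * q * sin p0 ^ 2 * cos p0 ^ 2) /
      (cos p0 ^ 2 * √(1 - q * sin p0 ^ 2) * √(1 - q * cos p0 ^ 2) ^ 3)) :=
    mul_pos hep0 (p6_om_deriv_pos h0 h1 (hcos p0 ⟨hp0.1.le, hp0.2⟩))
  obtain ⟨p1, hp1, hPsi1⟩ : ∃ p1 ∈ Ioo p0 (π / 2), p6_Psi k σ q p0 < p6_Psi k σ q p1 := by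
    have hd := hder p0 (hcos p0 ⟨hp0.1.le, hp0.2⟩)
    have hsl := hd.tendsto_slope
    have hsl2 := hsl.mono_left (nhdsWithin_mono p0 (fun x (hx : x ∈ Ioi p0) => ne_of_gt hx))
    have hev := hsl2.eventually (lt_mem_nhds hdp)
    have hev2 : ∀ᶠ x in 𝓝[>] p0, x ∈ Ioo p0 (π / 2) := Ioo_mem_nhdsGT hp0.2
    obtain ⟨p1, h1, h2⟩ := (hev.and hev2).exists
    refine ⟨p1, h2, ?_⟩
    rw [slope_def_field] at h1
    have h3 : 0 < p1 - p0 := by linarith [h2.1]
    rw [lt_div_iff₀ h3] at h1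
    linarith
  have hp0' : 0 ≤ p6_Psi k σ q p0 := by
    rw [← hPsi0]
    exact hmono ⟨le_rfl, by positivity⟩ ⟨hp0.1.le, hp0.2⟩ hp0.1.le
  have hge : p6_Psi k σ q p1 ≤ σ * G k q := by
    apply ge_of_tendsto hlim
    filter_upwards [Ioo_mem_nhdsLT hp1.2] with p hp
    exact hmono ⟨by linarith [hp0.1, hp1.1], hp1.2⟩ ⟨by linarith [hp0.1, hp1.1, hp.1], hp.2⟩ hp.1.le
  linarith

theorem p6 : P6 := ⟨p6_first, p6_second⟩

end Pool.Agent.R259.CI
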