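import Mathlib
import Pool.Agent.R259.CI.Defs

set_option autoImplicit false
set_option maxHeartbeats 400000

namespace Pool.Agent.R259.CI

open Real Set Filter Topology MeasureTheory

/-- multiplication of a power series by the variable -/
def p7_sh (c : ℕ → ℝ) : ℕ → ℝ
  | 0 => 0
  | n + 1 => c n

lemma p7_sh_hasSum {c : ℕ → ℝ} {q S : ℝ} (h : HasSum (fun n => c n * q ^ n) S) :
    HasSum (fun n => p7_sh c n * q ^ n) (q * S) := by
  have h1 : HasSum (fun n => p7_sh c (n + 1) * q ^ (n + 1)) (q * S) := by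
    refine (h.mul_left q).congr_fun ?_ |> fun x => x
    intro n
    simp only [p7_sh]
    ring
  have h2 := (hasSum_nat_add_iff (f := fun n => p7_sh c n * q ^ n) 1).1 h1
  simpa [p7_sh] using h2

/-- termwise integration of power series -/
lemma p7_integ {c : ℕ → ℝ} {φ g : ℝ → ℝ}
    (hφ : ∀ q : ℝ, 0 < q → q < 1 → HasSum (fun n => c n * q ^ n) (φ q))
    (hg : ∀ q : ℝ, 0 < q → q < 1 → HasDerivAt g (φ q) q)
    (h0 : Tendsto g (𝓝[>] 0) (𝓝 0)) {q : ℝ} (hq0 : 0 < q) (hq1 : q < 1) :
    HasSum (fun n : ℕ => c n / (n + 1) * q ^ (n + 1)) (g q) := by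
  set S : ℝ → ℝ := fun z => ∑' n : ℕ, c n / (n + 1) * z ^ (n + 1) with hS
  -- derivative
  have hd : ∀ z : ℝ, |z| < 1 → HasDerivAt S (∑' n, c n * z ^ n) z := by
    intro z hz
    obtain ⟨ρ, h1, h2⟩ := exists_between hz
    have hρ0 : 0 < ρ := lt_of_le_of_lt (abs_nonneg z) h1
    have hsum : Summable fun n => |c n| * ρ ^ n := by
      have := (hφ ρ hρ0 h2).summable.abs
      refine this.congr fun n => ?_
      rw [abs_mul, abs_of_nonneg (by positivity : 0 ≤ ρ ^ n)]
    refine hasDerivAt_tsum_of_isPreconnected (t := Ioo (-ρ) ρ) (y₀ := 0) hsum isOpen_Ioo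
      isPreconnected_Ioo (g := fun (n : ℕ) (z : ℝ) => c n / (n + 1) * z ^ (n + 1))
      (g' := fun n z => c n * z ^ n) (fun n y hy => ?_) (fun n y hy => ?_)
      ⟨by linarith, hρ0⟩ ?_ (abs_lt.1 h1)
    · have := (hasDerivAt_pow (n + 1) y).const_mul (c n / (n + 1))
      have e : c n / (n + 1) * (((n + 1 : ℕ) : ℝ) * y ^ (n + 1 - 1)) = c n * y ^ n := by
        push_cast
        have : (n + 1 : ℝ) ≠ 0 := by positivity
        field_simp
      rw [e] at this
      exact this
    · rw [norm_mul, norm_pow, Real.norm_eq_abs, Real.norm_eq_abs]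
      have : |y| ≤ ρ := (abs_lt.2 hy).le
      gcongr
    · simp
  have hS0 : S 0 = 0 := by simp [hS]
  -- the difference is constant
  obtain ⟨a, ha⟩ := isOpen_Ioo.exists_is_const_of_deriv_eq_zero (s := Ioo (0 : ℝ) 1)
    (f := fun z => g z - S z) isPreconnected_Ioo
    (fun z hz => ((hg z hz.1 hz.2).sub (hd z (abs_lt.2 ⟨by linarith [hz.1], hz.2⟩))).differentiableAt.differentiableWithinAt)
    (fun z hz => by
      have h1 := (hg z hz.1 hz.2).sub (hd z (abs_lt.2 ⟨by linarith [hz.1], hz.2⟩))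
      have h2 := h1.deriv
      rw [(hφ z hz.1 hz.2).tsum_eq, sub_self] at h2
      exact h2)
  have ha0 : a = 0 := by
    have hc : ContinuousAt S 0 := (hd 0 (by simp)).continuousAt
    have h1 : Tendsto (fun z => g z - S z) (𝓝[>] 0) (𝓝 (0 - S 0)) :=
      h0.sub (hc.tendsto.mono_left nhdsWithin_le_nhds)
    rw [hS0, sub_zero] at h1
    have h2 : Tendsto (fun z => g z - S z) (𝓝[>] 0) (𝓝 a) := by
      refine tendsto_const_nhds.congr' ?_
      filter_upwards [Ioo_mem_nhdsGT (show (0 : ℝ) < 1 by norm_num)] with z hz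
      exact (ha z hz).symm
    exact tendsto_nhds_unique h2 h1
  have hgq : g q = S q := by
    have := ha q ⟨hq0, hq1⟩
    rw [ha0] at this
    linarith
  have hsummable : Summable fun n : ℕ => c n / (n + 1) * q ^ (n + 1) := by
    have h1 : Summable fun n => |c n| * q ^ n := by
      have := (hφ q hq0 hq1).summable.abs
      refine this.congr fun n => ?_
      rw [abs_mul, abs_of_nonneg (by positivity : 0 ≤ q ^ n)]
    refine Summable.of_norm_bounded (h1) fun n => ?_
    rw [norm_mul, norm_div, norm_pow, Real.norm_eq_abs, Real.norm_eq_abs, Real.norm_eq_abs,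
      abs_of_pos hq0, abs_of_pos (by positivity : (0 : ℝ) < n + 1), pow_succ]
    have h2 : |c n| / (n + 1) ≤ |c n| := div_le_self (abs_nonneg _) (by linarith [Nat.cast_nonneg (α := ℝ) n])
    have h3 : q ^ n * q ≤ q ^ n := mul_le_of_le_one_right (by positivity) hq1.le
    exact mul_le_mul h2 h3 (by positivity) (abs_nonneg _)
  rw [hgq]
  exact hsummable.hasSum

/-- statement for one `k` -/
def p7_St (k : ℕ) : Prop := ∃ b : ℕ → ℝ, (∀ n, k ≤ n → 0 ≤ b n) ∧ (∃ n, k ≤ n ∧ 0 < b n) ∧
  ∀ q : ℝ, 0 < q → q < 1 → HasSum (fun n => b n * q ^ n) ((-1) ^ k * Ph k q)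

theorem p7 (h2 : P2) (h3 : P3) (h4 : P4) (h5 : P5) : P7 := by
  have key : ∀ k : ℕ, p7_St k ∧ p7_St (k + 1) := by
    intro k
    induction k with
    | zero =>
      obtain ⟨a, ha1, ha2, ha3, ha4⟩ := h4
      refine ⟨⟨a, fun n _ => (ha1 n).le, ⟨0, le_rfl, ha1 0⟩, fun q h0 h1 => ?_⟩,
        ⟨fun n => p7_sh a n - a n, fun n hn => ?_, ⟨1, le_rfl, ?_⟩, fun q h0 h1 => ?_⟩⟩
      · rw [pow_zero, one_mul]
        exact ha4 q h0 h1
      · obtain ⟨m, rfl⟩ : ∃ m, n = m + 1 := ⟨n - 1, by omega⟩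
        simp only [p7_sh]
        linarith [ha2 m]
      · simp only [p7_sh]
        linarith
      · have e1 := (p7_sh_hasSum (ha4 q h0 h1)).sub (ha4 q h0 h1)
        have e2 : (-1 : ℝ) ^ (0 + 1) * Ph (0 + 1) q = q * Ph 0 q - Ph 0 q := by
          rw [zero_add, h3.2 q h0 h1]
          ring
        rw [e2]
        simpa only [sub_mul] using e1
    | succ k ih =>
      obtain ⟨⟨b, hb1, hb2, hb3⟩, ⟨c, hc1, hc2, hc3⟩⟩ := ih
      refine ⟨⟨c, hc1, hc2, hc3⟩, ⟨fun n => b n + 2 * p7_sh (fun n => 2 * (k + 1) * c n / (n + 1)) n,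
        fun n hn => ?_, ?_, fun q h0 h1 => ?_⟩⟩
      · obtain ⟨m, rfl⟩ : ∃ m, n = m + 1 := ⟨n - 1, by omega⟩
        simp only [p7_sh]
        have h6 := hb1 (m + 1) (by omega)
        have h7 := hc1 m (by omega)
        positivity
      · obtain ⟨m, hm, hm'⟩ := hc2
        refine ⟨m + 1, by omega, ?_⟩
        simp only [p7_sh]
        have h6 := hb1 (m + 1) (by omega)
        positivity
      · have e1 : HasSum (fun n : ℕ => (2 * (k + 1) * c n) / (n + 1) * q ^ (n + 1))
            ((-1) ^ (k + 1) * G (k + 1) q) := by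
          refine p7_integ (c := fun n => 2 * (k + 1) * c n)
            (φ := fun q => 2 * (k + 1) * ((-1) ^ (k + 1) * Ph (k + 1) q))
            (g := fun q => (-1) ^ (k + 1) * G (k + 1) q) (fun q h0 h1 => ?_) (fun q h0 h1 => ?_)
            ?_ h0 h1
          · have := (hc3 q h0 h1).mul_left (2 * (k + 1) : ℝ)
            simpa only [mul_assoc] using this
          · have := (h2 (k + 1) q h0 h1).const_mul ((-1 : ℝ) ^ (k + 1))
            have e : (-1 : ℝ) ^ (k + 1) * (2 * ((k + 1 : ℕ) : ℝ) * Ph (k + 1) q) =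
                2 * (k + 1) * ((-1) ^ (k + 1) * Ph (k + 1) q) := by
              push_cast
              ring
            rw [e] at this
            exact this
          · have := (h5.1 (k + 1)).const_mul ((-1 : ℝ) ^ (k + 1))
            simpa using this
        have e2 : HasSum (fun n => p7_sh (fun n => 2 * (k + 1) * c n / (n + 1)) n * q ^ n)
            ((-1) ^ (k + 1) * G (k + 1) q) := by
          have h6 := (hasSum_nat_add_iff (f := fun n =>
            p7_sh (fun n : ℕ => 2 * ((k : ℝ) + 1) * c n / (n + 1)) n * q ^ n) 1).1 e1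
          simpa [p7_sh] using h6
        have e3 := (hb3 q h0 h1).add (e2.mul_left 2)
        have e4 : (-1 : ℝ) ^ (k + 1 + 1) * Ph (k + 1 + 1) q =
            (-1) ^ k * Ph k q + 2 * ((-1) ^ (k + 1) * G (k + 1) q) := by
          rw [show k + 1 + 1 = k + 2 by ring, h3.1 k q h0 h1]
          ring
        rw [e4]
        have e5 : (fun n => (b n + 2 * p7_sh (fun n : ℕ => 2 * ((k : ℝ) + 1) * c n / (n + 1)) n) *
            q ^ n) = fun n => b n * q ^ n +
              2 * (p7_sh (fun n : ℕ => 2 * ((k : ℝ) + 1) * c n / (n + 1)) n * q ^ n) := by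
          funext n
          ring
        rw [e5]
        exact e3
  exact fun k => (key k).1

end Pool.Agent.R259.CI
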