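import Mathlib
import Pool.Agent.R259.CI.Defs

set_option autoImplicit false

namespace Pool.Agent.R259.CI

open Real Set Filter Topology MeasureTheory

theorem p8_bern (r d : ℝ) (hr : 0 ≤ r) (hd : 0 ≤ d) (n : ℕ) :
    r ^ (n + 1) + (n + 1) * r ^ n * d ≤ (r + d) ^ (n + 1) := by
  induction n with
  | zero => simp
  | succ n ih =>
    have h := mul_le_mul_of_nonneg_right ih (add_nonneg hr hd)
    have h2 : 0 ≤ ((n : ℝ) + 1) * r ^ n * d * d := by positivity
    push_cast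
    calc r ^ (n + 1 + 1) + (n + 1 + 1) * r ^ (n + 1) * d
        = (r ^ (n + 1) + (n + 1) * r ^ n * d) * (r + d) - ((n : ℝ) + 1) * r ^ n * d * d := by
          ring
      _ ≤ (r + d) ^ (n + 1) * (r + d) := by linarith
      _ = (r + d) ^ (n + 1 + 1) := by ring

theorem p8_bern' (r d : ℝ) (hr : 0 ≤ r) (hd : 0 < d) (n : ℕ) :
    (n : ℝ) * r ^ (n - 1) ≤ (r + d) ^ n / d := by
  rw [le_div_iff₀ hd]
  rcases n with _ | n
  · simp
  · have h := p8_bern r d hr hd.le n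
    have h2 : 0 ≤ r ^ (n + 1) := by positivity
    push_cast
    linarith

theorem p8_deriv (b : ℕ → ℝ) (h : ℝ → ℝ)
    (hs : ∀ q : ℝ, 0 < q → q < 1 → HasSum (fun n => b n * q ^ n) (h q)) (q : ℝ) (h0 : 0 < q)
    (h1 : q < 1) :
    ∃ v, HasSum (fun n : ℕ => ((n : ℝ) + 1) * b (n + 1) * q ^ n) v ∧ HasDerivAt h v q := by
  obtain ⟨r, hqr, hr1⟩ := exists_between h1
  obtain ⟨s, hrs, hs1⟩ := exists_between hr1
  have hr0 : 0 < r := h0.trans hqr
  have hs0 : 0 < s := hr0.trans hrs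
  have hsum : Summable fun n => |b n| * s ^ n := by
    have := (hs s hs0 hs1).summable.abs
    refine this.congr fun n => ?_
    rw [abs_mul, abs_pow, abs_of_pos hs0]
  have hu : Summable fun n : ℕ => |b n| * ((n : ℝ) * r ^ (n - 1)) := by
    refine Summable.of_nonneg_of_le (fun n => by positivity) (fun n => ?_)
      (hsum.mul_right (s - r)⁻¹)
    have h2 := p8_bern' r (s - r) hr0.le (sub_pos.2 hrs) n
    rw [add_sub_cancel] at h2
    calc |b n| * ((n : ℝ) * r ^ (n - 1)) ≤ |b n| * (s ^ n / (s - r)) :=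
          mul_le_mul_of_nonneg_left h2 (abs_nonneg _)
      _ = |b n| * s ^ n * (s - r)⁻¹ := by rw [div_eq_mul_inv]; ring
  have hD : ∀ y ∈ Ioo (0 : ℝ) r,
      HasDerivAt (fun z => ∑' n, b n * z ^ n) (∑' n, b n * ((n : ℝ) * y ^ (n - 1))) y := by
    intro y hy
    refine hasDerivAt_tsum_of_isPreconnected (t := Ioo (0 : ℝ) r) (y₀ := q) hu isOpen_Ioo
      isPreconnected_Ioo (fun n z _ => (hasDerivAt_pow n z).const_mul (b n)) ?_ ⟨h0, hqr⟩
      (hs q h0 h1).summable hy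
    intro n z hz
    rw [norm_mul, Real.norm_eq_abs, Real.norm_eq_abs, abs_of_nonneg (a := (n : ℝ) * z ^ (n - 1))
      (by have := hz.1.le; positivity)]
    refine mul_le_mul_of_nonneg_left (mul_le_mul_of_nonneg_left ?_ (Nat.cast_nonneg _))
      (abs_nonneg _)
    exact pow_le_pow_left₀ hz.1.le hz.2.le _
  have hu2 : Summable fun n : ℕ => b n * ((n : ℝ) * q ^ (n - 1)) := by
    refine Summable.of_norm_bounded hu fun n => ?_
    rw [norm_mul, Real.norm_eq_abs, Real.norm_eq_abs, abs_of_nonneg (a := (n : ℝ) * q ^ (n - 1))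
      (by have := h0.le; positivity)]
    refine mul_le_mul_of_nonneg_left (mul_le_mul_of_nonneg_left ?_ (Nat.cast_nonneg _))
      (abs_nonneg _)
    exact pow_le_pow_left₀ h0.le hqr.le _
  refine ⟨∑' n, b n * ((n : ℝ) * q ^ (n - 1)), ?_, ?_⟩
  · have h3 := (hasSum_nat_add_iff' 1).2 hu2.hasSum
    simp only [Finset.range_one, Finset.sum_singleton, Nat.cast_zero, zero_mul, mul_zero,
      sub_zero] at h3
    have h4 : (fun n : ℕ => ((n : ℝ) + 1) * b (n + 1) * q ^ n) =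
        fun n : ℕ => b (n + 1) * (((n + 1 : ℕ) : ℝ) * q ^ (n + 1 - 1)) := by
      funext n
      rw [Nat.add_sub_cancel]
      push_cast
      ring
    rw [h4]
    exact h3
  · refine (hD q ⟨h0, hqr⟩).congr_of_eventuallyEq ?_
    filter_upwards [isOpen_Ioo.mem_nhds (show q ∈ Ioo (0 : ℝ) 1 from ⟨h0, h1⟩)] with z hz
    exact (hs z hz.1 hz.2).tsum_eq.symm

theorem p8_rolle (m : ℕ) (f f' : ℝ → ℝ) (hf : ∀ q, 0 < q → q < 1 → HasDerivAt f (f' q) q)
    (x : Fin (m + 2) → ℝ) (hx : StrictMono x) (hx2 : ∀ i, 0 < x i ∧ x i < 1)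
    (hc : ∀ i, f (x i) = f (x 0)) :
    ∃ y : Fin (m + 1) → ℝ, StrictMono y ∧ ∀ i, x i.castSucc < y i ∧ y i < x i.succ ∧
      f' (y i) = 0 := by
  have h : ∀ i : Fin (m + 1), ∃ y, x i.castSucc < y ∧ y < x i.succ ∧ f' y = 0 := by
    intro i
    obtain ⟨y, hy, hy2⟩ := exists_hasDerivAt_eq_zero (f := f) (f' := f')
      (hx (Fin.castSucc_lt_succ (i := i)))
      (fun z hz => (hf z ((hx2 _).1.trans_le hz.1) (hz.2.trans_lt (hx2 _).2)).continuousAt.continuousWithinAt)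
      (by rw [hc, hc i.succ])
      (fun z hz => hf z ((hx2 _).1.trans hz.1) (hz.2.trans (hx2 _).2))
    exact ⟨y, hy.1, hy.2, hy2⟩
  choose y hy1 hy2 hy3 using h
  refine ⟨y, Fin.strictMono_iff_lt_succ.2 fun i => ?_, fun i => ⟨hy1 i, hy2 i, hy3 i⟩⟩
  have h1 := hy2 i.castSucc
  have h2 := hy1 i.succ
  rw [Fin.succ_castSucc] at h1
  exact h1.trans h2

theorem p8 : P8 := by
  intro m
  induction m with
  | zero =>
    rintro b h hb ⟨n, _, hn⟩ hs ⟨x, _, hx⟩
    obtain ⟨h0, h1, h2⟩ := hx 0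
    have h3 := hs (x 0) h0 h1
    have h4 : 0 < h (x 0) := by
      rw [← h3.tsum_eq]
      refine h3.summable.tsum_pos (fun i => mul_nonneg (hb i (Nat.zero_le _)) (by positivity)) n ?_
      positivity
    linarith
  | succ m ih =>
    rintro b h hb ⟨n, hn1, hn⟩ hs ⟨x, hx, hx2⟩
    have hD := fun q h0 h1 => p8_deriv b h hs q h0 h1
    choose! v hv1 hv2 using hD
    obtain ⟨y, hy, hy2⟩ := p8_rolle m h v (fun q h0 h1 => hv2 q h0 h1) x hx
      (fun i => ⟨(hx2 i).1, (hx2 i).2.1⟩) (fun i => by rw [(hx2 i).2.2, (hx2 0).2.2])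
    refine ih (fun n => ((n : ℝ) + 1) * b (n + 1)) v (fun n hn => ?_) ⟨n - 1, by omega, ?_⟩
      (fun q h0 h1 => hv1 q h0 h1) ⟨y, hy, fun i => ⟨(hx2 _).1.trans (hy2 i).1,
        (hy2 i).2.1.trans (hx2 _).2.1, (hy2 i).2.2⟩⟩
    · have := hb (n + 1) (by omega)
      positivity
    · have h1 : n - 1 + 1 = n := by omega
      rw [h1]
      positivity

end Pool.Agent.R259.CI
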