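import Mathlib
import Pool.Agent.R259.CI.Defs

set_option autoImplicit false

namespace Pool.Agent.R259.CI

open Real Set Filter Topology MeasureTheory

theorem p9 (h2 : P2) (h5 : P5) (h7 : P7) (h8 : P8) : P9 := by
  intro k hk α β
  rintro ⟨x, hx, hx2⟩
  set H : ℝ → ℝ := fun q => G k q - (α * q + β * q ^ 2) with hH
  set H' : ℝ → ℝ := fun q => 2 * k * Ph k q - (α + 2 * β * q) with hH'
  have hder : ∀ q : ℝ, 0 < q → q < 1 → HasDerivAt H (H' q) q := by
    intro q h0 h1
    have e1 : HasDerivAt (fun q : ℝ => α * q + β * q ^ 2) (α + 2 * β * q) q := by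
      have := ((hasDerivAt_id q).const_mul α).add (((hasDerivAt_id q).pow 2).const_mul β)
      refine this.congr_deriv ?_
      simp only [id]
      ring
    exact (h2 k q h0 h1).sub e1
  have hlim : Tendsto H (𝓝[>] 0) (𝓝 0) := by
    have e1 : Tendsto (fun q : ℝ => α * q + β * q ^ 2) (𝓝[>] 0) (𝓝 0) := by
      have : Continuous (fun q : ℝ => α * q + β * q ^ 2) := by fun_prop
      have := (this.tendsto 0).mono_left (nhdsWithin_le_nhds (s := Ioi 0))
      simpa using this
    simpa using (h5.1 k).sub e1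
  have hzero : ∀ i, H (x i) = 0 := by
    intro i
    rw [hH]
    simp only
    rw [(hx2 i).2.2, sub_self]
  -- zeros of the derivative
  have hroll : ∀ i : Fin (k + 1), ∃ y : ℝ, 0 < y ∧ y < x i ∧ H' y = 0 ∧
      ∀ j : Fin (k + 1), j < i → x j < y := by
    intro i
    by_cases hi : i = 0
    · subst hi
      have hc : ContinuousOn H (Ioc 0 (x 0)) := by
        intro q hq
        exact (hder q hq.1 (lt_of_le_of_lt hq.2 (hx2 0).2.1)).continuousAt.continuousWithinAt
      have hb : Tendsto H (𝓝[<] (x 0)) (𝓝 0) := by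
        have := (hder (x 0) (hx2 0).1 (hx2 0).2.1).continuousAt.tendsto
        rw [hzero 0] at this
        exact this.mono_left nhdsWithin_le_nhds
      obtain ⟨y, hy, hy0⟩ := exists_hasDerivAt_eq_zero' (hx2 0).1 hlim hb
        (fun q hq => hder q hq.1 (hq.2.trans (hx2 0).2.1))
      exact ⟨y, hy.1, hy.2, hy0, fun j hj => absurd hj (Fin.not_lt_zero j)⟩
    · obtain ⟨j, hj⟩ : ∃ j : Fin (k + 1), j < i ∧ ∀ j', j' < i → j' ≤ j := by
        obtain ⟨j0, rfl⟩ := Fin.exists_succ_eq.2 hi
        refine ⟨j0.castSucc, Fin.castSucc_lt_succ, fun j' hj' => ?_⟩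
        exact Fin.le_castSucc_iff.2 hj'
      obtain ⟨y, hy, hy0⟩ := exists_hasDerivAt_eq_zero (hx hj.1)
        (fun q hq => (hder q (lt_of_lt_of_le (hx2 j).1 hq.1)
          (lt_of_le_of_lt hq.2 (hx2 i).2.1)).continuousAt.continuousWithinAt)
        (by rw [hzero, hzero])
        (fun q hq => hder q ((hx2 j).1.trans hq.1) (hq.2.trans (hx2 i).2.1))
      exact ⟨y, (hx2 j).1.trans hy.1, hy.2, hy0, fun j' hj' =>
        lt_of_le_of_lt (hx.monotone (hj.2 j' hj')) hy.1⟩
  choose y hy0 hyx hyH hyj using hroll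
  have hymono : StrictMono y := fun i j hij => (hyx i).trans (hyj j i hij)
  obtain ⟨b, hb1, ⟨n0, hn0, hn0'⟩, hb3⟩ := h7 k
  set c : ℕ → ℝ := fun n => (-1) ^ k * (α * (if n = 0 then 1 else 0) +
    2 * β * (if n = 1 then 1 else 0)) with hc
  refine h8 k (fun n => 2 * k * b n - c n) (fun q => (-1) ^ k * H' q) ?_ ?_ ?_ ?_
  · intro n hn
    have e1 : c n = 0 := by
      rw [hc]
      simp only [show n ≠ 0 by omega, show n ≠ 1 by omega, if_false, mul_zero, add_zero]
    rw [e1, sub_zero]
    have := hb1 n hn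
    positivity
  · refine ⟨n0, hn0, ?_⟩
    have e1 : c n0 = 0 := by
      rw [hc]
      simp only [show n0 ≠ 0 by omega, show n0 ≠ 1 by omega, if_false, mul_zero, add_zero]
    rw [e1, sub_zero]
    have : (0 : ℝ) < k := by exact_mod_cast (by omega : 0 < k)
    positivity
  · intro q h0 h1
    have e1 := (hb3 q h0 h1).mul_left (2 * (k : ℝ))
    have e2 : HasSum (fun n => c n * q ^ n) ((-1) ^ k * (α + 2 * β * q)) := by
      have : HasSum (fun n => c n * q ^ n) (∑ n ∈ Finset.range 2, c n * q ^ n) :=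
        hasSum_sum_of_ne_finset_zero (fun n hn => by
          have hn2 : 2 ≤ n := not_lt.1 fun h => hn (Finset.mem_range.2 h)
          rw [hc]
          simp only [show n ≠ 0 by omega, show n ≠ 1 by omega, if_false, mul_zero, add_zero,
            zero_mul])
      have e3 : ∑ n ∈ Finset.range 2, c n * q ^ n = (-1) ^ k * (α + 2 * β * q) := by
        rw [Finset.sum_range_succ, Finset.sum_range_one, hc]
        simp only [if_true, one_ne_zero, zero_ne_one, if_false, mul_zero, mul_one, add_zero,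
          zero_add, pow_zero, pow_one]
        ring
      rw [e3] at this
      exact this
    have e3 := e1.sub e2
    have e4 : 2 * (k : ℝ) * ((-1) ^ k * Ph k q) - (-1) ^ k * (α + 2 * β * q) =
        (-1) ^ k * H' q := by
      rw [hH']
      ring
    rw [e4] at e3
    have e5 : (fun n => (2 * (k : ℝ) * b n - c n) * q ^ n) =
        fun n => 2 * (k : ℝ) * (b n * q ^ n) - c n * q ^ n := by
      funext n; ring
    rw [e5]
    exact e3
  · exact ⟨y, hymono, fun i => ⟨hy0 i, (hyx i).trans (hx2 i).2.1, by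
      rw [hyH i, mul_zero]⟩⟩

end Pool.Agent.R259.CI
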